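import Pool.Agent.NH5.LK.Link
import Pool.Agent.NH5.PR.Stm

/-!
# The good sets of project PR and the determinants of project NH1
-/

set_option autoImplicit false
set_option linter.style.haveILetI false

namespace Pool.Agent.NH5.LK

open Finset
open Pool.Agent.NH5.GD (q2)
open Pool.Agent.NH1 (DD Lp lg gX perm2 sS sI sA sB sq2 sq7 Pm)
open Pool.Agent.Z700 (pr X2)
open Pool.Agent.Y703.CQ (nr)

theorem nr_q2 (p n : ℕ) : nr p n = q2 ((n : ℕ) : ZMod p) := by
  unfold nr q2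
  by_cases h : IsSquare ((n : ℕ) : ZMod p)
  · simp only [if_pos h]
  · simp only [if_neg h]

theorem lg_nr {N : Finset ℕ} (hN : Pm N) {p q : ℕ} (hp : p ∈ N) (hq : q ∈ N) (hpq : p ≠ q) :
    lg p q = nr q p := by
  rw [nr_q2]
  haveI : Fact q.Prime := ⟨(hN q hq).1⟩
  have h0 : (((p : ℕ) : ℤ) : ZMod q) ≠ 0 := by
    rw [Int.cast_natCast, Ne, ZMod.natCast_eq_zero_iff]
    intro h
    exact hpq ((Nat.prime_dvd_prime_iff_eq (hN q hq).1 (hN p hp).1).1 h).symm
  unfold lg q2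
  rw [← jacobiSym.legendreSym.to_jacobiSym]
  have h1 := legendreSym.eq_neg_one_iff q (a := ((p : ℕ) : ℤ))
  rw [Int.cast_natCast] at h1
  by_cases h2 : IsSquare ((p : ℕ) : ZMod q)
  · rw [if_pos h2, if_neg]
    intro h3
    exact (h1.1 h3) h2
  · rw [if_neg h2, if_pos (h1.2 h2)]

theorem mem_row {N : Finset ℕ} {p : ℕ} : p ∈ sS N ∪ sB N ↔ p ∈ N ∧ sq7 p := by
  unfold sS sB
  rw [mem_union, mem_filter, mem_filter]
  by_cases h1 : sq2 p <;> by_cases h2 : sq7 p <;> simp [h1, h2]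

theorem mem_col {N : Finset ℕ} {p : ℕ} : p ∈ sS N ∪ sA N ↔ p ∈ N ∧ sq2 p := by
  unfold sS sA
  rw [mem_union, mem_filter, mem_filter]
  by_cases h1 : sq2 p <;> by_cases h2 : sq7 p <;> simp [h1, h2]

/-- the row of the matrix applied to a vector -/
theorem row_eq {N : Finset ℕ} (hN : Pm N) (f : ℕ → ZMod 2) {x : ℕ → ZMod 2}
    (hx : ∀ p ∈ N, ¬ sq2 p → x p = 0) {p : ℕ} (hp : p ∈ N) :
    ∑ q : (sS N ∪ sA N : Finset ℕ), Lp lg f N p q * x q =
      ∑ q ∈ N, nr q p * (x q + x p) + f p * x p := by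
  rw [Finset.sum_coe_sort (sS N ∪ sA N) (fun q => Lp lg f N p q * x q)]
  have h1 : ∑ q ∈ sS N ∪ sA N, Lp lg f N p q * x q = ∑ q ∈ N, Lp lg f N p q * x q := by
    refine Finset.sum_subset (fun q hq => (mem_col.1 hq).1) fun q hq hq' => ?_
    rw [hx q hq (fun h => hq' (mem_col.2 ⟨hq, h⟩)), mul_zero]
  rw [h1, ← Finset.add_sum_erase N _ hp, ← Finset.add_sum_erase N (fun q => nr q p * (x q + x p)) hp]
  have h2 : Lp lg f N p p = f p + ∑ t ∈ N.erase p, lg p t := by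
    unfold Lp
    rw [if_pos rfl]
  have h3 : ∀ q ∈ N.erase p, Lp lg f N p q = nr q p := by
    intro q hq
    unfold Lp
    rw [if_neg (mem_erase.1 hq).1.symm]
    exact lg_nr hN hp (mem_of_mem_erase hq) (mem_erase.1 hq).1.symm
  have h4 : ∀ q ∈ N.erase p, lg p q = nr q p := fun q hq =>
    lg_nr hN hp (mem_of_mem_erase hq) (mem_erase.1 hq).1.symm
  have h6 : ∑ q ∈ N.erase p, Lp lg f N p q * x q = ∑ q ∈ N.erase p, nr q p * x q :=
    Finset.sum_congr rfl fun q hq => by rw [h3 q hq]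
  rw [h2, Finset.sum_congr rfl h4, h6, CharTwo.add_self_eq_zero, mul_zero, zero_add]
  have h5 : ∑ q ∈ N.erase p, nr q p * (x q + x p) =
      ∑ q ∈ N.erase p, nr q p * x q + (∑ q ∈ N.erase p, nr q p) * x p := by
    rw [Finset.sum_mul, ← Finset.sum_add_distrib]
    exact Finset.sum_congr rfl fun q _ => by ring
  rw [h5]
  ring

/-- **the bridge** -/
theorem gd_iff {N : Finset ℕ} (hN : Pm N) (hc : (sA N).card = (sB N).card) (f : ℕ → ZMod 2) :
    Pool.Agent.NH5.PR.Gd f N ↔ DD f N = 1 := by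
  classical
  have hcard : (sS N ∪ sB N).card = (sS N ∪ sA N).card := by
    rw [Finset.card_union_of_disjoint, Finset.card_union_of_disjoint, hc]
    · rw [Finset.disjoint_left]
      intro p h1 h2
      exact (mem_filter.1 h2).2.2 (mem_filter.1 h1).2.2
    · rw [Finset.disjoint_left]
      intro p h1 h2
      exact (mem_filter.1 h2).2.1 (mem_filter.1 h1).2.1
  unfold DD
  rw [perm2_iff]
  set M : Matrix (sS N ∪ sB N : Finset ℕ) (sS N ∪ sA N : Finset ℕ) (ZMod 2) :=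
    Matrix.of fun p q => Lp lg f N p q with hM
  have hinj : Function.Injective M.mulVec ↔ ∀ v, M.mulVec v = 0 → v = 0 := by
    rw [← Matrix.coe_mulVecLin, injective_iff_map_eq_zero]
  have hmv : ∀ (x : ℕ → ZMod 2) (p : (sS N ∪ sB N : Finset ℕ)),
      M.mulVec (fun q => x q) p = ∑ q : (sS N ∪ sA N : Finset ℕ), Lp lg f N p q * x q := by
    intro x p
    rfl
  constructor
  · intro h
    refine ⟨hcard, hinj.2 fun v hv => ?_⟩
    set x : ℕ → ZMod 2 := fun q => if hq : q ∈ sS N ∪ sA N then v ⟨q, hq⟩ else 0 with hx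
    have hxv : (fun q : (sS N ∪ sA N : Finset ℕ) => x q) = v := by
      funext q
      simp only [hx]
      rw [dif_pos q.2]
    have hx0 : ∀ p ∈ N, ¬ sq2 p → x p = 0 := by
      intro p hp h2
      simp only [hx]
      rw [dif_neg (fun h => h2 (mem_col.1 h).2)]
    have h1 := h x ⟨hx0, fun p hp h7 => by
      have h2 := hmv x ⟨p, mem_row.2 ⟨hp, h7⟩⟩
      rw [hxv, hv] at h2
      rw [← row_eq hN f hx0 hp]
      exact h2.symm⟩
    funext q
    rw [← hxv]
    exact h1 q (mem_col.1 q.2).1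
  · rintro ⟨-, h⟩ x ⟨hx0, hx⟩ p hp
    have h1 := hinj.1 h (fun q => x q) (by
      funext p
      rw [hmv x p, row_eq hN f hx0 (mem_row.1 p.2).1]
      exact hx p (mem_row.1 p.2).1 (mem_row.1 p.2).2)
    by_cases h2 : sq2 p
    · exact congrFun h1 ⟨p, mem_col.2 ⟨hp, h2⟩⟩
    · exact hx0 p hp h2

end Pool.Agent.NH5.LK
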