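import Pool.Agent.NH5.LK.QR2

/-!
# The class of a prime in the class group of `ℚ(√-14)` and the number `13 + 16 √2`, III
-/

set_option autoImplicit false
set_option linter.style.haveILetI false

namespace Pool.Agent.NH5.LK

open Finset
open Pool.Agent.NH1 (sq2 sq7 S_QR S_CL1)
open Pool.Agent.Z700 (X2)
open Pool.Agent.NH5.GD (q2 q2_eq_zero q2_mul zmod2_add)
open Pool.Agent.NH5.GC (sq_m7)

theorem sq5 : ¬ IsSquare ((5 : ℤ) : ZMod 7) := by decide

theorem sqf7 {p : ℕ} (hp : p.Prime) {n : ℤ} (hn : n = p ∨ n = 2 * p) :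
    ∀ q : ℕ, q.Prime → q ≠ 2 → ¬ ((q : ℤ) ^ 2 ∣ n) := by
  intro q hq hq2 hd
  have h1 : ((q : ℤ) ^ 2 ∣ 2 * (p : ℤ)) := by
    rcases hn with rfl | rfl
    · exact Dvd.dvd.mul_left hd 2
    · exact hd
  have h2 : q ^ 2 ∣ 2 * p := by exact_mod_cast h1
  have h3 : q ^ 2 ∣ p := by
    refine Nat.Coprime.dvd_of_dvd_mul_left ?_ h2
    apply Nat.Coprime.pow_left
    rw [Nat.coprime_primes hq Nat.prime_two]
    exact hq2
  have h4 := hp.squarefree q (by rw [← pow_two]; exact h3)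
  rw [Nat.isUnit_iff] at h4
  exact hq.one_lt.ne' h4

/-- QR -/
theorem s_QR (hCL : S_CL1) : S_QR := by
  intro p hp h2 h7 w hw
  haveI : Fact p.Prime := ⟨hp⟩
  haveI : Fact (Nat.Prime 7) := ⟨by norm_num⟩
  have h8 : p % 8 = 1 ∨ p % 8 = 7 := h2
  have p2 : p ≠ 2 := by rintro rfl; omega
  have h77 : p % 7 = 1 ∨ p % 7 = 2 ∨ p % 7 = 4 := h7
  have p7 : p ≠ 7 := by rintro rfl; omega
  have hs7 : IsSquare (-7 : ZMod p) := by
    exact (sq_m7 hp p2 p7).2 h77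
  obtain ⟨c, d, hd, hc, hcd⟩ := rep2 hp h8
  have hp0 : (0 : ℤ) < p := by exact_mod_cast hp.pos
  have hc' : (0 : ℤ) < c := by exact_mod_cast hc
  have hd' : (0 : ℤ) < d := by exact_mod_cast hd
  have hcd2 : (d : ℤ) < c := by nlinarith
  obtain ⟨m, hm⟩ : ∃ m : ℕ, (m : ℤ) = 2 * c - d := ⟨(2 * (c : ℤ) - d).toNat, by
    rw [Int.toNat_of_nonneg (by linarith)]⟩
  have hm7 : ¬ 7 ∣ m := by
    intro h
    have h1 : (7 : ℤ) ∣ (m : ℤ) := by exact_mod_cast h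
    have h3 : (7 : ℤ) ∣ 4 * (p : ℤ) := by
      have e : 4 * (p : ℤ) = (m : ℤ) * (2 * c + d) - 7 * (d : ℤ) ^ 2 := by rw [hm, hcd]; ring
      rw [e]
      exact dvd_sub (Dvd.dvd.mul_right h1 _) (Dvd.intro _ rfl)
    omega
  have hcr := crit hp h8 p7 hs7 hd hcd hm hm7 w hw
  -- the number `13 + 16 w`
  have hw1 : (1 + w) ≠ 0 := by
    intro h
    have : (1 + w) * (w - 1) = 1 := by linear_combination hw
    rw [h, zero_mul] at this
    exact zero_ne_one this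
  have h2w : 2 * w - 1 ≠ 0 := by
    intro h
    have h3 : (2 * w - 1) * (2 * w + 1) = 7 := by linear_combination 4 * hw
    rw [h, zero_mul] at h3
    have h4 : ((7 : ℕ) : ZMod p) = 0 := by push_cast; exact h3.symm
    rw [ZMod.natCast_eq_zero_iff] at h4
    exact p7 ((Nat.prime_dvd_prime_iff_eq hp (by norm_num)).1 h4)
  have hA : IsSquare (13 + 16 * w) ↔ IsSquare (2 * w - 1) := by
    have e : 13 + 16 * w = (2 * w - 1) * (((2 * w - 1) * (1 + w)) * ((2 * w - 1) * (1 + w))) := by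
      linear_combination (-8 * w ^ 3 - 4 * w ^ 2 - 6 * w - 7) * hw
    rw [e, ← q2_eq_zero, ← q2_eq_zero, q2_mul p2 h2w
      (mul_ne_zero (mul_ne_zero h2w hw1) (mul_ne_zero h2w hw1)), q2_eq_zero.2 ⟨_, rfl⟩, add_zero]
  rw [hA, hcr]
  have hn7 : ¬ (7 : ℤ) ∣ (p : ℤ) := by omega
  constructor
  · intro hsm hX
    obtain ⟨f, g, hfg⟩ := hX
    have hfg' : (p : ℤ) = 2 * (f : ℤ) ^ 2 + 7 * (g : ℤ) ^ 2 := by exact_mod_cast hfg
    have h1 := keyA (C := 2 * ((c : ℤ) + d)) (D := (c : ℤ) + 2 * d) (X := 2 * (f : ℤ)) (y := g)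
      (n := 2 * p) (by linarith) (by rw [hcd]; ring) (by rw [hfg']; ring) (by omega)
      (sqf7 hp (Or.inr rfl)) (by positivity)
    have h3 : ((2 * (2 * ((c : ℤ) + d)) - ((c : ℤ) + 2 * d) : ℤ) : ZMod 7) =
        ((5 : ℤ) : ZMod 7) * ((m : ℕ) : ZMod 7) := by
      have h4 := congrArg (fun z : ℤ => (z : ZMod 7)) hm
      push_cast at h4 ⊢
      rw [h4]
      linear_combination (-(c : ZMod 7) + (d : ZMod 7)) * seven_zero
    rw [h3] at h1
    have hm0 : ((m : ℕ) : ZMod 7) ≠ 0 := by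
      rw [Ne, ZMod.natCast_eq_zero_iff]; exact hm7
    obtain ⟨t, ht⟩ := hsm
    obtain ⟨r, hr⟩ := h1
    have ht0 : t ≠ 0 := by
      rintro rfl
      exact hm0 (by rw [ht, mul_zero])
    apply sq5
    refine ⟨r / t, ?_⟩
    rw [div_mul_div_comm, eq_div_iff (mul_ne_zero ht0 ht0), ← ht, hr]
  · intro hX
    rcases (hCL p hp h2 h7).1 with h | ⟨x, y, hxy⟩
    · exact absurd h hX
    · have hxy' : (p : ℤ) = (x : ℤ) ^ 2 + 14 * (y : ℤ) ^ 2 := by exact_mod_cast hxy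
      have h1 := keyA (C := (c : ℤ)) (D := (d : ℤ)) (X := (x : ℤ)) (y := y)
        (n := p) hc' hcd.symm hxy'.symm hn7
        (sqf7 hp (Or.inl rfl)) (by positivity)
      have h3 : ((2 * (c : ℤ) - (d : ℤ) : ℤ) : ZMod 7) = ((m : ℕ) : ZMod 7) := by
        rw [← hm]
        push_cast
        rfl
      rw [h3] at h1
      exact h1

end Pool.Agent.NH5.LK
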