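import Pool.Agent.NH5.LK.Rank
import Pool.Agent.NH5.LK.QR3
import Pool.Agent.NH5.LK.Bridge
import Pool.Agent.NH1.All
import Pool.Agent.NH2.Coc
import Pool.Agent.NH2.Uniq
import Pool.Agent.NH2.Parb
import Pool.Agent.NH2.C1A
import Pool.Agent.NH2.C1
import Pool.Agent.NH2.C2
import Pool.Agent.NH2.Wtv
import Pool.Agent.NH2.Sq
import Pool.Agent.NH2.Dia
import Pool.Agent.NH2.Cs
import Pool.Agent.NH2.Val
import Pool.Agent.Y17.N.Fin

/-!
# The complete law, unconditionally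
-/

set_option autoImplicit false
set_option linter.style.haveILetI false

namespace Pool.Agent.NH5.LK

open Finset
open Pool.Agent.NH5.GD
open Pool.Agent.NH1 (DD gX sS sI sA sB sq2 sq7 Pm K S_QR S_MAIN)
open Pool.Agent.Z700 (pr)

theorem f_QR : S_QR := s_QR Pool.Agent.NH1.t_CL1

theorem f_DIA : Pool.Agent.NH2.S_DIA :=
  Pool.Agent.NH2.t_DIA
    (Pool.Agent.NH2.t_C1 Pool.Agent.NH2.t_C1A Pool.Agent.NH2.t_C1B Pool.Agent.NH2.t_PARI)
    Pool.Agent.NH2.t_C2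
    (Pool.Agent.NH2.t_SQ Pool.Agent.NH1.t_PHI Pool.Agent.NH1.t_PROT Pool.Agent.NH1.f_PROD
      (Pool.Agent.NH2.t_VAN Pool.Agent.NH1.t_PHI Pool.Agent.NH1.f_ROT Pool.Agent.NH1.f_EQU)
      (Pool.Agent.NH2.t_WTV Pool.Agent.NH1.t_PHI) Pool.Agent.Y17.N.f_LB Pool.Agent.Y17.N.f_C7)
    (Pool.Agent.NH2.t_WPN Pool.Agent.NH1.t_PHI Pool.Agent.NH1.f_PROD
      (Pool.Agent.NH2.t_WTV Pool.Agent.NH1.t_PHI) Pool.Agent.Y17.N.f_C7)

theorem f_VI : Pool.Agent.NH2.S_VI :=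
  Pool.Agent.NH2.t_VI Pool.Agent.NH2.t_COC Pool.Agent.NH2.t_PARI Pool.Agent.NH2.t_UEV f_DIA
    Pool.Agent.NH2.t_CS Pool.Agent.NH1.f_MAIN Pool.Agent.NH1.f_A2

theorem f_VII : Pool.Agent.NH2.S_VII :=
  Pool.Agent.NH2.t_VII Pool.Agent.NH2.t_COC Pool.Agent.NH2.t_PARI Pool.Agent.NH2.t_UEV f_DIA
    Pool.Agent.NH2.t_CS Pool.Agent.NH1.f_MAIN Pool.Agent.NH1.f_A2

theorem f_VIII : Pool.Agent.NH2.S_VIII :=
  Pool.Agent.NH2.t_VIII Pool.Agent.NH2.t_COC Pool.Agent.NH2.t_PARI Pool.Agent.NH2.t_UOD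
    (Pool.Agent.NH2.t_PARB Pool.Agent.NH2.t_COC Pool.Agent.NH2.t_PARI) f_DIA
    Pool.Agent.NH2.t_CM Pool.Agent.NH1.f_MAIN Pool.Agent.NH1.f_A2

/-- the root number is `+1` -/
theorem K_even {N : Finset ℕ} (hN : Pm N) (hc : ((sA N).card + (sB N).card) % 2 = 0) {r : ℕ}
    (h : pr N % 8 = r) : K r (pr N) := by
  have h1 := par_B hN h
  have h2 := par_A hN
  have h3 := pr_mod7 hN
  have h4 := Nat.odd_iff.1 (pr_odd hN)
  have h5 := Nat.mod_lt (pr N) (show 0 < 7 by norm_num)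
  have h6 : ((sI N).card + (sA N).card) % 2 = ((sI N).card + (sB N).card) % 2 := by omega
  rw [h6, h1] at h2
  refine ⟨h, ?_⟩
  split_ifs at h2 ⊢ <;> omega

theorem pf_pr {D : ℤ} (hs : Squarefree D) : pr D.natAbs.primeFactors = D.natAbs :=
  Nat.prod_primeFactors_of_squarefree (Int.squarefree_natAbs.2 hs)

theorem pf_pm {D : ℤ} (hA : Adm D) : Pm D.natAbs.primeFactors := by
  intro p hp
  have hp1 := Nat.prime_of_mem_primeFactors hp
  have hp2 : (p : ℤ) ∣ D := Int.natCast_dvd.2 (Nat.dvd_of_mem_primeFactors hp)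
  refine ⟨hp1, ?_, ?_⟩
  · rintro rfl
    have := hA.m4
    push_cast at hp2
    omega
  · rintro rfl
    exact hA.n7 (by exact_mod_cast hp2)

/-- **the complete law**: the full 2-part and the criterion -/
theorem full_ev {D : ℤ} (hA : Adm D) (h1 : D ≠ 1)
    (hc : (sB D.natAbs.primeFactors).card ≤ (sA D.natAbs.primeFactors).card)
    (he : ((sA D.natAbs.primeFactors).card + (sB D.natAbs.primeFactors).card) % 2 = 0) : Full D := by
  have hN := pf_pm hA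
  have hp := pf_pr hA.sqf
  have hne : D.natAbs.primeFactors.Nonempty := by
    rw [Nat.nonempty_primeFactors]
    have h4 := hA.m4
    omega
  have hodd := Nat.odd_iff.1 (pr_odd hN)
  have hr : pr D.natAbs.primeFactors % 8 = 1 ∨ pr D.natAbs.primeFactors % 8 = 3 ∨
      pr D.natAbs.primeFactors % 8 = 5 ∨ pr D.natAbs.primeFactors % 8 = 7 := by omega
  exact full_all f_QR Pool.Agent.NH1.f_MAIN f_VI f_VII f_VIII Pool.Agent.NH1.f_A2 hN hne hr
    (K_even hN he rfl) hc hp.symm hA.m4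

theorem dd_good {D : ℤ} (hA : Adm D) : DD gX D.natAbs.primeFactors = 1 ↔ Good D :=
  link (pf_pm hA) (pf_pr hA.sqf).symm hA.m4 f_QR

theorem gd_good {D : ℤ} (hA : Adm D)
    (hc : (sA D.natAbs.primeFactors).card = (sB D.natAbs.primeFactors).card) :
    Pool.Agent.NH5.PR.Gd gX D.natAbs.primeFactors ↔ Good D :=
  (gd_iff (pf_pm hA) hc gX).trans (dd_good hA)

/-- the criterion for the 2-descent -/
theorem nosel_good {D : ℤ} (h4 : D % 4 = 1) (hF : Full D) : NoSel D ↔ Good D := by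
  rw [nosel_iff h4]
  obtain ⟨-, -, y, y1, y2, -⟩ := hF
  exact y1.symm.trans y2

end Pool.Agent.NH5.LK
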