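import Pool.Agent.NH5.LK.All

/-!
# The complete law: consequences used by the hand-ins
-/

set_option autoImplicit false
set_option linter.style.haveILetI false

namespace Pool.Agent.NH5.LK

open Finset
open Pool.Agent.NH5.GD
open Pool.Agent.NH1 (DD Lp lg gX perm2 sS sI sA sB sq2 sq7 Pm K S_QR S_MAIN)
open Pool.Agent.Z700 (pr)
open Pool.Agent.Y700 (WM EQ tamProd)
open Pool.Agent.TH841.SH.D

/-- the numbers of the primes of types `A` and `B` -/
noncomputable def nA (D : ℤ) : ℕ := (sA D.natAbs.primeFactors).card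

/-- the numbers of the primes of types `A` and `B` -/
noncomputable def nB (D : ℤ) : ℕ := (sB D.natAbs.primeFactors).card

theorem card_Rw {D : ℤ} (hA : Adm D) : (Rw D).card = (sS D.natAbs.primeFactors).card + nA D := by
  rw [Rw_eq (pf_pm hA) (pf_pr hA.sqf).symm hA.m4, card_SA]
  rfl

theorem card_Cw {D : ℤ} (hA : Adm D) : (Cw D).card = (sS D.natAbs.primeFactors).card + nB D := by
  rw [Cw_eq (pf_pm hA) (pf_pr hA.sqf).symm hA.m4, card_SB]
  rfl

theorem nosel_le {D : ℤ} (hA : Adm D) (h : NoSel D) : nA D ≤ nB D := by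
  classical
  have h0 := (nosel_iff hA.m4).1 h
  obtain ⟨t1, t2, -⟩ := Pool.Agent.Z702.trn_WM Pool.Agent.Z702.f_TRN hA.m4
  have h2 := conv Pool.Agent.Z702.f_COC Pool.Agent.Z702.f_LOT Pool.Agent.Z702.f_COB
    Pool.Agent.Z702.f_TOR Pool.Agent.Z702.f_LQ Pool.Agent.Z702.f_LG hA (t1.2 h0.1) (t2.2 h0.2)
  have h3 := (inj_rank (MD D).transpose).1 h2
  have h4 := (MD D).transpose.rank_le_card_height
  rw [h3, Fintype.card_coe, Fintype.card_coe, card_Rw hA, card_Cw hA] at h4
  omega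

theorem nosel_bal {D : ℤ} (hA : Adm D) (hc : nA D = nB D) : NoSel D ↔ Good D := by
  rw [nosel_iff hA.m4]
  refine (equiv Pool.Agent.Z702.f_COC Pool.Agent.Z702.f_LOT Pool.Agent.Z702.f_COB
    Pool.Agent.Z702.f_TOR Pool.Agent.Z702.f_LQ Pool.Agent.Z702.f_LG Pool.Agent.Z702.f_TRN hA ?_).symm
  rw [card_Rw hA, card_Cw hA, hc]

theorem good_bal {D : ℤ} (hA : Adm D) (h : Good D) : nA D = nB D := by
  have h1 := (good_iff.1 h).1
  rw [card_Rw hA, card_Cw hA] at h1
  omega

/-- the criterion -/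
theorem crit_ev {D : ℤ} (hA : Adm D) (hc : nB D ≤ nA D) : NoSel D ↔ Good D := by
  constructor
  · intro h
    exact (nosel_bal hA (le_antisymm (nosel_le hA h) hc)).1 h
  · intro h
    exact (nosel_bal hA (good_bal hA h)).2 h

/-- **the 2-converse** -/
theorem bsd_of {D : ℤ} (hA : Adm D) (h1 : D ≠ 1) (hc : nB D ≤ nA D) (h : NoSel D) :
    Pool.Agent.Y687.RankBSD (5805 * D ^ 2) (-285714 * D ^ 3) := by
  have he : nA D = nB D := le_antisymm (nosel_le hA h) hc
  refine rank_of_full hA.m4 (full_ev hA h1 hc ?_) h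
  have : (sA D.natAbs.primeFactors).card = (sB D.natAbs.primeFactors).card := he
  omega

/-- the entries of the matrix -/
noncomputable def nq (p q : ℕ) : ZMod 2 := by
  classical exact if IsSquare (p : ZMod q) then 0 else 1

theorem good_perm {D : ℤ} (hA : Adm D) : Good D ↔
    (sS D.natAbs.primeFactors ∪ sB D.natAbs.primeFactors).card =
      (sS D.natAbs.primeFactors ∪ sA D.natAbs.primeFactors).card ∧
    Function.Injective (Matrix.of fun (p : (sS D.natAbs.primeFactors ∪ sB D.natAbs.primeFactors :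
      Finset ℕ)) (q : (sS D.natAbs.primeFactors ∪ sA D.natAbs.primeFactors : Finset ℕ)) =>
        Lp lg gX D.natAbs.primeFactors p q).mulVec := by
  rw [← dd_good hA]
  unfold DD
  exact perm2_iff _ _ _

theorem inj_bij {m n : Type} [Fintype m] [Fintype n] [DecidableEq m] [DecidableEq n]
    (A : Matrix m n (ZMod 2)) : Function.Bijective A.mulVec ↔
      Fintype.card m = Fintype.card n ∧ Function.Injective A.mulVec := by
  haveI : Fact (Nat.Prime 2) := ⟨Nat.prime_two⟩
  constructor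
  · intro h
    refine ⟨?_, h.1⟩
    have h1 := Fintype.card_of_bijective h
    rw [Fintype.card_fun, Fintype.card_fun, ZMod.card] at h1
    exact (Nat.pow_right_injective (le_refl 2) h1).symm
  · rintro ⟨h1, h2⟩
    rw [Fintype.bijective_iff_injective_and_card]
    refine ⟨h2, ?_⟩
    rw [Fintype.card_fun, Fintype.card_fun, h1]

/-! ### the constants of the formula -/

theorem tam_ev {D : ℤ} (hA : Adm D) : ∃ o : ℕ, Odd o ∧ tamProd (WM D) =
    2 ^ ((sA D.natAbs.primeFactors ∪ sI D.natAbs.primeFactors).card +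
      2 * (sS D.natAbs.primeFactors ∪ sB D.natAbs.primeFactors).card + 1) * o := by
  classical
  set N := D.natAbs.primeFactors with hN'
  have hN := pf_pm hA
  have hp := pf_pr hA.sqf
  have hD0 := hA.n0
  have hPS : D.natAbs = (∏ q ∈ sS N ∪ sB N, q) * ∏ q ∈ sA N ∪ sI N, q := by
    rw [← hp]
    exact pr_split N
  rcases lt_or_gt_of_ne hD0 with hneg | hpos
  · exact Pool.Agent.Z705.f_TAM Pool.Agent.Y809.BSD14.t_E0
      Pool.Agent.Y809.BSD14.t_TIN Pool.Agent.Y809.BSD14.t_TSP Pool.Agent.Y641.BSD14.t2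
      Pool.Agent.Y641.BSD14.t7 _ _ (mem_P hN) (mem_S hN) D hPS hA.m4 hA.sqf
  · have hnM : ((D.natAbs : ℕ) : ℤ) = D := by omega
    have h4 := hA.m4
    have h := Pool.Agent.Y700.tam_gen Pool.Agent.Y809.BSD14.t_E0
      Pool.Agent.Y809.BSD14.t_TIN Pool.Agent.Y809.BSD14.t_TSP Pool.Agent.Y641.BSD14.t2
      Pool.Agent.Y641.BSD14.t7 (mem_P hN) (mem_S hN) (M := D.natAbs) hPS (by omega)
      (by rw [hnM]; exact hA.sqf)
    rwa [hnM] at h

theorem tor_ev {D : ℤ} (hA : Adm D) : ∃ k : ℕ, Odd k ∧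
    Nat.card (AddCommGroup.torsion (EQ (WM D)).toAffine.Point) = 2 * k := by
  have hM0 := hA.n0
  have hM2 : 0 < D ^ 2 := by positivity
  have hab : (13 * D) ^ 2 - 4 * (128 * D ^ 2) < 0 := by nlinarith
  obtain ⟨k, hk, a3⟩ := Pool.Agent.Z702.f_TORS (13 * D) (128 * D ^ 2) (by positivity) hab.ne
    (Pool.Agent.Z702.ns_b hM0) (Pool.Agent.Z702.ns_ab hM0)
  rw [(Pool.Agent.Z702.trn_WM Pool.Agent.Z702.f_TRN hA.m4).2.2] at a3
  exact ⟨k, hk, a3⟩

end Pool.Agent.NH5.LK
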