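import Pool.Agent.Z705.Cnt
import Pool.Agent.Y687.K2.RankForm
import Pool.Agent.Y687.K4.MainT
import Pool.Agent.Y700.Lm

/-!
# From the complete Euler product to the incomplete one
-/

set_option autoImplicit false
set_option linter.style.haveILetI false

namespace Pool.Agent.NH5.LK

open Finset WeierstrassCurve
open Pool.Agent.W97.MT (ap affCount)
open Pool.Agent.Y700 (WM IsL WM_coeff Delta_WM EQ)
open Pool.Agent.Y687 (fac WB cnt)

theorem aff_le (W : WeierstrassCurve ℤ) (p : ℕ) [Fact p.Prime] : affCount W p ≤ 2 * p := by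
  classical
  unfold affCount
  set V := W.map (Int.castRingHom (ZMod p)) with hV
  have e1 : Nat.card {P : ZMod p × ZMod p // V.toAffine.Equation P.1 P.2} =
      (univ.filter fun P : ZMod p × ZMod p => V.toAffine.Equation P.1 P.2).card := by
    rw [Nat.card_eq_fintype_card, Fintype.card_subtype]
  rw [e1]
  have e2 : (univ.filter fun P : ZMod p × ZMod p => V.toAffine.Equation P.1 P.2).card ≤
      ∑ x : ZMod p, (univ.filter fun y : ZMod p => V.toAffine.Equation x y).card := by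
    rw [Finset.card_eq_sum_card_fiberwise (f := fun P : ZMod p × ZMod p => P.1) (t := univ)
      (fun _ _ => Finset.mem_coe.2 (mem_univ _))]
    refine Finset.sum_le_sum fun x _ => ?_
    refine Finset.card_le_card_of_injOn (fun P => P.2) ?_ ?_
    · intro P hP
      rw [Finset.mem_coe, Finset.mem_filter, Finset.mem_filter] at hP
      rw [Finset.mem_coe, Finset.mem_filter]
      refine ⟨mem_univ _, ?_⟩
      rw [← hP.2]
      exact hP.1.2
    · intro P hP Q hQ h
      rw [Finset.mem_coe, Finset.mem_filter] at hP hQ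
      exact Prod.ext (hP.2.trans hQ.2.symm) h
  refine e2.trans ?_
  have e3 : ∀ x : ZMod p, (univ.filter fun y : ZMod p => V.toAffine.Equation x y).card ≤ 2 := by
    intro x
    rcases (univ.filter fun y : ZMod p => V.toAffine.Equation x y).eq_empty_or_nonempty with h | h
    · rw [h]; simp
    · obtain ⟨y0, hy0⟩ := h
      have hy0' := (mem_filter.1 hy0).2
      rw [Affine.equation_iff] at hy0'
      have hsub : (univ.filter fun y : ZMod p => V.toAffine.Equation x y) ⊆
          {y0, -y0 - V.a₁ * x - V.a₃} := by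
        intro y hy
        have hy' := (mem_filter.1 hy).2
        rw [Affine.equation_iff] at hy'
        have h0 : (y - y0) * (y - (-y0 - V.a₁ * x - V.a₃)) = 0 := by
          linear_combination hy' - hy0'
        rw [mem_insert, mem_singleton]
        rcases mul_eq_zero.1 h0 with h | h
        · left; linear_combination h
        · right; linear_combination h
      refine (card_le_card hsub).trans ?_
      exact card_le_two
  refine (Finset.sum_le_sum fun x _ => e3 x).trans ?_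
  rw [Finset.sum_const, Finset.card_univ, ZMod.card, smul_eq_mul, mul_comm]

theorem aff_pos {D : ℤ} (hD : D % 4 = 1) (p : ℕ) [Fact p.Prime] : 0 < affCount (WM D) p := by
  classical
  obtain ⟨a, b, c, hW, ha, hb, hc⟩ := WM_coeff hD
  unfold affCount
  rw [Nat.card_pos_iff]
  obtain ⟨k, hk⟩ : ∃ k, D = 4 * k + 1 := ⟨D / 4, by omega⟩
  refine ⟨⟨⟨(((D : ℤ) : ZMod p), ((-(2 * k + 1) : ℤ) : ZMod p)), ?_⟩⟩, inferInstance⟩
  rw [Affine.equation_iff]
  have h : (-(2 * k + 1)) ^ 2 + (WM D).a₁ * D * (-(2 * k + 1)) + (WM D).a₃ * (-(2 * k + 1)) =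
      D ^ 3 + (WM D).a₂ * D ^ 2 + (WM D).a₄ * D + (WM D).a₆ := by
    rw [hW]
    simp only
    have h4 : (4 : ℤ) ≠ 0 := by norm_num
    apply mul_left_cancel₀ h4
    rw [hk] at ha hb hc ⊢
    linear_combination -(4 * k + 1) ^ 2 * ha - 2 * (4 * k + 1) * hb - hc
  have h2 := congrArg (fun z : ℤ => (z : ZMod p)) h
  push_cast at h2
  simp only [WeierstrassCurve.map_a₁, WeierstrassCurve.map_a₂, WeierstrassCurve.map_a₃,
    WeierstrassCurve.map_a₄, WeierstrassCurve.map_a₆, eq_intCast]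
  push_cast
  exact h2

/-- the Euler factor -/
noncomputable def Ef (W : WeierstrassCurve ℤ) (p : ℕ) (s : ℂ) : ℂ :=
  1 - (ap W p : ℂ) * (p : ℂ) ^ (-s) + (if (p : ℤ) ∣ W.Δ then 0 else (p : ℂ) ^ (1 - 2 * s))

theorem ef_one {D : ℤ} (hD : D % 4 = 1) {p : ℕ} (hp : p.Prime) : Ef (WM D) p 1 ≠ 0 := by
  haveI : Fact p.Prime := ⟨hp⟩
  have h1 := aff_pos hD p
  have hp0 : (p : ℂ) ≠ 0 := by exact_mod_cast hp.ne_zero
  have e1 : (p : ℂ) ^ (-(1 : ℂ)) = (p : ℂ)⁻¹ := by
    rw [Complex.cpow_neg, Complex.cpow_one]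
  have e2 : (p : ℂ) ^ (1 - 2 * (1 : ℂ)) = (p : ℂ)⁻¹ := by
    rw [show (1 - 2 * (1 : ℂ)) = -1 by norm_num, Complex.cpow_neg, Complex.cpow_one]
  have hap : (ap (WM D) p : ℂ) = (p : ℂ) - (affCount (WM D) p : ℂ) := by
    unfold ap
    push_cast
    rfl
  unfold Ef
  rw [e1, e2, hap]
  intro h0
  have h2 : ∃ δ : ℕ, ((affCount (WM D) p + δ : ℕ) : ℂ) = 0 := by
    split_ifs at h0
    · refine ⟨0, ?_⟩
      push_cast
      field_simp at h0
      linear_combination h0
    · refine ⟨1, ?_⟩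
      push_cast
      field_simp at h0
      linear_combination h0
  obtain ⟨δ, h3⟩ := h2
  rw [Nat.cast_eq_zero] at h3
  omega

theorem ef_ne {D : ℤ} (hD : D % 4 = 1) {p : ℕ} (hp : p.Prime)
    (hb : (p : ℤ) ∣ (WM D).Δ ∨ p = 3) {s : ℂ} (hs : (3 : ℝ) / 2 < s.re) : Ef (WM D) p s ≠ 0 := by
  haveI : Fact p.Prime := ⟨hp⟩
  have h1 := aff_le (WM D) p
  have hp1 : (1 : ℝ) < p := by exact_mod_cast hp.one_lt
  have hp0 : (0 : ℝ) < p := by linarith
  have hap : |(ap (WM D) p : ℝ)| ≤ p := by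
    have h2 : |ap (WM D) p| ≤ p := by
      unfold ap
      rw [abs_le]
      constructor <;> omega
    exact_mod_cast h2
  have n1 : ‖(p : ℂ) ^ (-s)‖ < (p : ℝ) ^ (-(3 / 2) : ℝ) := by
    rw [Complex.norm_natCast_cpow_of_pos hp.pos, Complex.neg_re]
    exact Real.rpow_lt_rpow_of_exponent_lt hp1 (by linarith)
  have n2 : ‖(ap (WM D) p : ℂ) * (p : ℂ) ^ (-s)‖ ≤ p * (p : ℝ) ^ (-(3 / 2) : ℝ) := by
    rw [norm_mul]
    have e : ‖(ap (WM D) p : ℂ)‖ = |(ap (WM D) p : ℝ)| := by
      rw [Complex.norm_intCast]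
    rw [e]
    exact mul_le_mul hap n1.le (norm_nonneg _) hp0.le
  have e3 : (p : ℝ) * (p : ℝ) ^ (-(3 / 2) : ℝ) = (p : ℝ) ^ (-(1 / 2) : ℝ) := by
    have h := Real.rpow_add hp0 1 (-(3 / 2))
    rw [Real.rpow_one] at h
    rw [← h]
    norm_num
  rw [e3] at n2
  intro h0
  unfold Ef at h0
  by_cases hd : (p : ℤ) ∣ (WM D).Δ
  · rw [if_pos hd, add_zero, sub_eq_zero] at h0
    rw [← h0, norm_one] at n2
    have h3 : (p : ℝ) ^ (-(1 / 2) : ℝ) < 1 := Real.rpow_lt_one_of_one_lt_of_neg hp1 (by norm_num)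
    linarith
  · have hp3 : p = 3 := by
      rcases hb with h | h
      · exact absurd h hd
      · exact h
    rw [if_neg hd] at h0
    have n3 : ‖(p : ℂ) ^ (1 - 2 * s)‖ < (p : ℝ) ^ (-2 : ℝ) := by
      rw [Complex.norm_natCast_cpow_of_pos hp.pos]
      apply Real.rpow_lt_rpow_of_exponent_lt hp1
      simp only [Complex.sub_re, Complex.one_re, Complex.mul_re, Complex.re_ofNat, Complex.im_ofNat,
        zero_mul, sub_zero]
      linarith
    have h4 : (1 : ℂ) = (ap (WM D) p : ℂ) * (p : ℂ) ^ (-s) - (p : ℂ) ^ (1 - 2 * s) := by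
      linear_combination h0
    have h5 : (1 : ℝ) ≤ (p : ℝ) ^ (-(1 / 2) : ℝ) + (p : ℝ) ^ (-2 : ℝ) := by
      calc (1 : ℝ) = ‖(1 : ℂ)‖ := by rw [norm_one]
        _ = ‖(ap (WM D) p : ℂ) * (p : ℂ) ^ (-s) - (p : ℂ) ^ (1 - 2 * s)‖ := by rw [← h4]
        _ ≤ _ := (norm_sub_le _ _).trans (add_le_add n2 n3.le)
    subst hp3
    have h6 : ((3 : ℕ) : ℝ) ^ (-(1 / 2) : ℝ) ≤ 3 / 5 := by
      rw [Real.rpow_neg (by norm_num), ← Real.sqrt_eq_rpow]
      rw [inv_le_comm₀ (Real.sqrt_pos.2 (by norm_num)) (by norm_num)]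
      apply Real.le_sqrt_of_sq_le
      norm_num
    have h7 : ((3 : ℕ) : ℝ) ^ (-2 : ℝ) = 1 / 9 := by
      rw [show (-2 : ℝ) = ((-2 : ℤ) : ℝ) by norm_num, Real.rpow_intCast]
      norm_num
    rw [h7] at h5
    linarith

theorem ef_diff (W : WeierstrassCurve ℤ) {p : ℕ} (hp : p.Prime) : Differentiable ℂ (Ef W p) := by
  have hp0 : (p : ℂ) ≠ 0 := by exact_mod_cast hp.ne_zero
  unfold Ef
  have h1 : Differentiable ℂ fun s : ℂ => (p : ℂ) ^ (-s) := by
    intro s
    exact (differentiableAt_id.neg).const_cpow (Or.inl hp0)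
  have h2 : Differentiable ℂ fun s : ℂ => (p : ℂ) ^ (1 - 2 * s) := by
    intro s
    exact ((differentiableAt_const 1).sub ((differentiableAt_const 2).mul differentiableAt_id)).const_cpow
      (Or.inl hp0)
  split_ifs
  · exact ((differentiable_const 1).sub ((differentiable_const _).mul h1)).add (differentiable_const 0)
  · exact ((differentiable_const 1).sub ((differentiable_const _).mul h1)).add h2

theorem disc_eq (D : ℤ) : 2 * (4 * (5805 * D ^ 2) ^ 3 + 27 * (-285714 * D ^ 3) ^ 2) =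
    2 ^ 15 * 3 ^ 12 * 7 ^ 3 * D ^ 6 := by ring

/-- **from the complete Euler product to the incomplete one** -/
theorem inc_of {D : ℤ} (h4 : D % 4 = 1) {f : ℂ → ℂ} (hf : IsL (WM D) f) (h1 : f 1 ≠ 0) :
    ∃ F : ℂ → ℂ, Differentiable ℂ F ∧
      (∀ s : ℂ, (3 : ℝ) / 2 < s.re →
        HasProd (fun l : {l : ℕ // l.Prime ∧
            ¬ ((l : ℤ) ∣ 2 * (4 * (5805 * D ^ 2) ^ 3 + 27 * (-285714 * D ^ 3) ^ 2))} =>
          fac (5805 * D ^ 2) (-285714 * D ^ 3) s l) (F s)) ∧ F 1 ≠ 0 := by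
  classical
  have hD0 : D ≠ 0 := by rintro rfl; omega
  set T : Finset ℕ := (42 * D.natAbs).primeFactors with hT
  have hTn : 42 * D.natAbs ≠ 0 := by
    have := Int.natAbs_ne_zero.2 hD0
    omega
  have memT : ∀ p : ℕ, p ∈ T ↔ p.Prime ∧ ((p : ℤ) ∣ 2 * (4 * (5805 * D ^ 2) ^ 3 +
      27 * (-285714 * D ^ 3) ^ 2)) := by
    intro p
    rw [hT, Nat.mem_primeFactors_of_ne_zero hTn]
    refine and_congr_right fun hp => ?_
    have hP := Nat.prime_iff_prime_int.1 hp
    rw [disc_eq]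
    constructor
    · intro h
      have h2 : (p : ℤ) ∣ 42 * D := by
        have h3 : (p : ℤ) ∣ ((42 * D.natAbs : ℕ) : ℤ) := by exact_mod_cast h
        rw [← Int.natAbs_dvd_natAbs] at h3 ⊢
        rw [Int.natAbs_natCast] at h3
        rw [Int.natAbs_mul]
        exact h3
      have e : (2 : ℤ) ^ 15 * 3 ^ 12 * 7 ^ 3 * D ^ 6 = (42 * D) * (2 ^ 14 * 3 ^ 11 * 7 ^ 2 * D ^ 5) := by
        ring
      rw [e]
      exact Dvd.dvd.mul_right h2 _
    · intro h
      have h2 : (p : ℤ) ∣ 42 * D := by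
        have e : (42 * D) ^ 15 = (2 ^ 15 * 3 ^ 12 * 7 ^ 3 * D ^ 6) * (3 ^ 3 * 7 ^ 12 * D ^ 9) := by
          ring
        apply hP.dvd_of_dvd_pow (n := 15)
        rw [e]
        exact Dvd.dvd.mul_right h _
      have h3 : (p : ℤ).natAbs ∣ (42 * D).natAbs := Int.natAbs_dvd_natAbs.2 h2
      rw [Int.natAbs_natCast, Int.natAbs_mul] at h3
      exact h3
  have hTp : ∀ p ∈ T, p.Prime := fun p hp => ((memT p).1 hp).1
  have hbad : ∀ p ∈ T, (p : ℤ) ∣ (WM D).Δ ∨ p = 3 := by
    intro p hp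
    have hpp := hTp p hp
    have hP := Nat.prime_iff_prime_int.1 hpp
    rw [hT, Nat.mem_primeFactors_of_ne_zero hTn] at hp
    rw [Delta_WM h4]
    have h2 : (p : ℤ) ∣ 42 * D := by
      have h3 : (p : ℤ) ∣ ((42 * D.natAbs : ℕ) : ℤ) := by exact_mod_cast hp.2
      rw [← Int.natAbs_dvd_natAbs] at h3 ⊢
      rw [Int.natAbs_natCast] at h3
      rw [Int.natAbs_mul]
      exact h3
    rcases hP.dvd_or_dvd h2 with h | h
    · have h5 : p ∣ 42 := by exact_mod_cast h
      have h6 : p ∣ 14 * 3 := by simpa using h5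
      rcases (Nat.Prime.dvd_mul hpp).1 h6 with h7 | h7
      · left
        have h8 : (p : ℤ) ∣ 14 := by exact_mod_cast h7
        have e : -(2 ^ 6 * 7 ^ 3) * D ^ 6 = 14 * (-(2 ^ 5 * 7 ^ 2) * D ^ 6) := by ring
        rw [e]
        exact Dvd.dvd.mul_right h8 _
      · right
        exact (Nat.prime_dvd_prime_iff_eq hpp Nat.prime_three).1 h7
    · left
      exact Dvd.dvd.mul_left (Dvd.dvd.pow h (by norm_num)) _
  refine ⟨fun s => f s * ∏ p ∈ T, Ef (WM D) p s, ?_, ?_, ?_⟩
  · refine hf.1.mul ?_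
    exact Differentiable.fun_finsetProd fun p hp => ef_diff _ (hTp p hp)
  · intro s hs
    have h2 := hf.2 s (by exact_mod_cast hs)
    set g : ℕ → ℂ := fun p => if p.Prime then (Ef (WM D) p s)⁻¹ else 1 with hg
    have h3 : HasProd g (f s) := by
      rw [← hasProd_subtype_iff_of_mulSupport_subset (s := {p : ℕ | p.Prime})]
      · refine (congrArg (fun G => HasProd G (f s)) (funext fun p => ?_)).mp h2
        show _ = g p
        rw [hg]
        simp only
        rw [if_pos (show Nat.Prime (p : ℕ) from p.2)]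
        rfl
      · intro p hp
        rw [Function.mem_mulSupport] at hp
        by_contra h
        apply hp
        rw [hg]
        simp only
        rw [if_neg (show ¬ Nat.Prime p from h)]
    set h : ℕ → ℂ := fun p => if p ∈ T then Ef (WM D) p s else 1 with hh
    have h4' : HasProd h (∏ p ∈ T, h p) := hasProd_prod_of_ne_finset_one fun p hp => by
      rw [hh]
      simp only
      rw [if_neg hp]
    have h5 : ∏ p ∈ T, h p = ∏ p ∈ T, Ef (WM D) p s := by
      refine Finset.prod_congr rfl fun p hp => ?_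
      rw [hh]
      simp only
      rw [if_pos hp]
    rw [h5] at h4'
    have h6 := h3.mul h4'
    have h7 : (fun p => g p * h p) = fun p : ℕ => if p.Prime ∧ ¬ ((p : ℤ) ∣ 2 * (4 * (5805 * D ^ 2) ^ 3 +
        27 * (-285714 * D ^ 3) ^ 2)) then fac (5805 * D ^ 2) (-285714 * D ^ 3) s p else 1 := by
      funext p
      rw [hg, hh]
      simp only
      by_cases hp : p.Prime
      · by_cases hpT : p ∈ T
        · rw [if_pos hp, if_pos hpT, if_neg (fun h => h.2 ((memT p).1 hpT).2),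
            inv_mul_cancel₀ (ef_ne h4 hp (hbad p hpT) hs)]
        · have hnd : ¬ ((p : ℤ) ∣ 2 * (4 * (5805 * D ^ 2) ^ 3 + 27 * (-285714 * D ^ 3) ^ 2)) :=
            fun h => hpT ((memT p).2 ⟨hp, h⟩)
          rw [if_pos hp, if_neg hpT, if_pos ⟨hp, hnd⟩, mul_one]
          have hdv : ∀ k : ℕ, p ∣ k → k ∣ 42 * D.natAbs → False := by
            intro k h1 h2
            apply hpT
            rw [hT, Nat.mem_primeFactors_of_ne_zero hTn]
            exact ⟨hp, h1.trans h2⟩
          have hp2 : p ≠ 2 := by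
            rintro rfl
            exact hdv 2 (dvd_refl _) (Dvd.dvd.mul_right (by norm_num) _)
          have hp3 : p ≠ 3 := by
            rintro rfl
            exact hdv 3 (dvd_refl _) (Dvd.dvd.mul_right (by norm_num) _)
          have hpD : ¬ p ∣ D.natAbs := fun h => hdv _ h (Dvd.intro_left _ rfl)
          have hc := Pool.Agent.Z705.cnt_affCountZ hp hp2 hp3 h4 hpD
          have hΔ : ¬ (p : ℤ) ∣ (WM D).Δ := by
            rw [Delta_WM h4]
            intro h
            apply hnd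
            rw [disc_eq]
            have e : (2 : ℤ) ^ 15 * 3 ^ 12 * 7 ^ 3 * D ^ 6 =
              (-(2 ^ 6 * 7 ^ 3) * D ^ 6) * (-(2 ^ 9 * 3 ^ 12)) := by ring
            rw [e]
            exact Dvd.dvd.mul_right h _
          unfold Ef fac ap
          rw [if_neg hΔ, ← hc]
          rfl
      · rw [if_neg hp, if_neg (fun h => hp ((memT p).1 h).1), if_neg (fun h => hp h.1), mul_one]
    rw [h7] at h6
    rw [← hasProd_subtype_iff_of_mulSupport_subset (s := {l : ℕ | l.Prime ∧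
      ¬ ((l : ℤ) ∣ 2 * (4 * (5805 * D ^ 2) ^ 3 + 27 * (-285714 * D ^ 3) ^ 2))})] at h6
    · refine (congrArg (fun G => HasProd G _) (funext fun p => ?_)).mp h6
      simp only [Function.comp_apply]
      exact if_pos p.2
    · intro p hp
      rw [Function.mem_mulSupport] at hp
      by_contra hcon
      exact hp (if_neg hcon)
  · exact mul_ne_zero h1 (Finset.prod_ne_zero_iff.2 fun p hp => ef_one h4 (hTp p hp))

end Pool.Agent.NH5.LK
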