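import Pool.Agent.NH5.LK.Core
import Pool.Agent.NH5.LK.Inc
import Pool.Agent.NH5.LK.Bridge

/-!
# The rank form
-/

set_option autoImplicit false
set_option linter.style.haveILetI false

namespace Pool.Agent.NH5.LK

open Finset WeierstrassCurve
open Pool.Agent.NH5.GD
open Pool.Agent.NH1 (DD gX sS sI sA sB sq2 sq7 Pm K S_QR S_MAIN)
open Pool.Agent.Z700 (pr)
open Pool.Agent.TH841.SH.D
open Pool.Agent.Y687 (RankBSD rankBSD)
open Pool.Agent.Y700 (WM EQ IsL)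
open Pool.Agent.Z702 (sh)

theorem finite_pts {A B : ℤ} (hd : 4 * A ^ 3 + 27 * B ^ 2 ≠ 0)
    (h : Finite (sh A B).toAffine.Point) :
    {q : ℚ × ℚ | q.2 ^ 2 = q.1 ^ 3 + (A : ℚ) * q.1 + (B : ℚ)}.Finite := by
  have hΔ : (sh A B).Δ ≠ 0 := by
    have e : (sh A B).Δ = -16 * ((4 * A ^ 3 + 27 * B ^ 2 : ℤ) : ℚ) := by
      unfold sh WeierstrassCurve.Δ WeierstrassCurve.b₂ WeierstrassCurve.b₄ WeierstrassCurve.b₆
        WeierstrassCurve.b₈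
      push_cast
      ring
    rw [e]
    exact mul_ne_zero (by norm_num) (by exact_mod_cast hd)
  have hns : ∀ q : ℚ × ℚ, q.2 ^ 2 = q.1 ^ 3 + (A : ℚ) * q.1 + (B : ℚ) →
      (sh A B).toAffine.Nonsingular q.1 q.2 := by
    intro q hq
    refine (Affine.equation_iff_nonsingular_of_Δ_ne_zero hΔ).1 ?_
    rw [Affine.equation_iff]
    show q.2 ^ 2 + 0 * q.1 * q.2 + 0 * q.2 = q.1 ^ 3 + 0 * q.1 ^ 2 + (A : ℚ) * q.1 + (B : ℚ)
    linarith
  rw [← Set.finite_coe_iff]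
  let g : {q : ℚ × ℚ | q.2 ^ 2 = q.1 ^ 3 + (A : ℚ) * q.1 + (B : ℚ)} → (sh A B).toAffine.Point :=
    fun q => Affine.Point.some q.1.1 q.1.2 (hns q.1 q.2)
  refine Finite.of_injective g ?_
  rintro ⟨⟨x, y⟩, hq⟩ ⟨⟨x', y'⟩, hq'⟩ h
  simp only [g, Affine.Point.some.injEq] at h
  obtain ⟨rfl, rfl⟩ := h
  rfl

theorem disc_ne {D : ℤ} (hD : D ≠ 0) :
    4 * (5805 * D ^ 2) ^ 3 + 27 * (-285714 * D ^ 3) ^ 2 ≠ 0 := by
  have e : 4 * (5805 * D ^ 2) ^ 3 + 27 * (-285714 * D ^ 3) ^ 2 =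
    2986545364992 * D ^ 6 := by ring
  rw [e]
  exact mul_ne_zero (by norm_num) (pow_ne_zero 6 hD)

/-- no Selmer elements, for the short equation -/
def NoSel (D : ℤ) : Prop := Finite (sh (5805 * D ^ 2) (-285714 * D ^ 3)).toAffine.Point ∧
  ∀ x : Sha (sh (5805 * D ^ 2) (-285714 * D ^ 3)), x + x = 0 → x = 0

theorem nosel_iff {D : ℤ} (h4 : D % 4 = 1) : NoSel D ↔
    (Finite (EQ (WM D)).toAffine.Point ∧ ∀ x : Sha (EQ (WM D)), x + x = 0 → x = 0) := by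
  have hD : D ≠ 0 := by rintro rfl; omega
  obtain ⟨t1, t2, -⟩ := Pool.Agent.Z702.trn_WM Pool.Agent.Z702.f_TRN h4
  obtain ⟨t3, t4⟩ := Pool.Agent.Z702.trn_sh Pool.Agent.Z702.f_TRN hD
  unfold NoSel
  rw [← t1, ← t2, t3, t4]

/-- **the rank form of the conjecture from the 2-descent** -/
theorem rank_of_full {D : ℤ} (h4 : D % 4 = 1) (hF : Full D) (hs : NoSel D) :
    RankBSD (5805 * D ^ 2) (-285714 * D ^ 3) := by
  have hD : D ≠ 0 := by rintro rfl; omega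
  obtain ⟨c1, ⟨f, hf⟩, y, y1, y2, c3⟩ := hF
  have hy : Odd y := y1.2 ((nosel_iff h4).1 hs)
  have hy0 : y ≠ 0 := by
    rintro rfl
    exact absurd hy (by decide)
  have h1 := (c3 f hf).1 hy0
  obtain ⟨F, g1, g2, g3⟩ := inc_of h4 hf h1
  exact rankBSD g1 g2 g3 (finite_pts (disc_ne hD) hs.1)

end Pool.Agent.NH5.LK
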