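import Pool.Agent.NH5.LK.Link

/-!
# The numbers of the primes of each type
-/

set_option autoImplicit false
set_option linter.style.haveILetI false

namespace Pool.Agent.NH5.LK

open Finset
open Pool.Agent.NH1 (sS sI sA sB sq2 sq7 Pm K ex)
open Pool.Agent.Z700 (pr)

theorem jac2 {p : ℕ} (hp : p.Prime) (h2 : p ≠ 2) : jacobiSym 2 p = if sq2 p then 1 else -1 := by
  have ho := hp.odd_of_ne_two h2
  rw [jacobiSym.at_two ho, ZMod.χ₈_nat_eq_if_mod_eight]
  have h := Nat.odd_iff.1 ho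
  unfold sq2
  split_ifs <;> first | rfl | omega

theorem j7 (n : ℕ) (h : n % 7 ≠ 0) : jacobiSym n 7 =
    if n % 7 = 1 ∨ n % 7 = 2 ∨ n % 7 = 4 then 1 else -1 := by
  rw [jacobiSym.mod_left]
  have h1 : ((n : ℤ) % ((7 : ℕ) : ℤ)) = ((n % 7 : ℕ) : ℤ) := by push_cast; rfl
  rw [h1]
  have h2 : n % 7 < 7 := Nat.mod_lt _ (by norm_num)
  have key : ∀ k : ℕ, k < 7 → k ≠ 0 → jacobiSym ((k : ℕ) : ℤ) 7 =
      if k = 1 ∨ k = 2 ∨ k = 4 then 1 else -1 := by
    intro k hk h0
    interval_cases k <;> first | (exact absurd rfl h0) | norm_num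
  exact key _ h2 h

theorem jac7 {p : ℕ} (hp : p.Prime) (h7 : p ≠ 7) : jacobiSym p 7 = if sq7 p then 1 else -1 := by
  have h0 : p % 7 ≠ 0 := by
    intro h
    exact h7 ((Nat.prime_dvd_prime_iff_eq (by norm_num) hp).1 (Nat.dvd_of_mod_eq_zero h)).symm
  rw [j7 p h0]
  by_cases h : sq7 p
  · rw [if_pos h, if_pos (show p % 7 = 1 ∨ p % 7 = 2 ∨ p % 7 = 4 from h)]
  · rw [if_neg h, if_neg (show ¬ (p % 7 = 1 ∨ p % 7 = 2 ∨ p % 7 = 4) from h)]

theorem prod_sgn {N : Finset ℕ} (P : ℕ → Prop) [DecidablePred P] :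
    ∏ p ∈ N, (if P p then (1 : ℤ) else -1) = (-1) ^ (N.filter fun p => ¬ P p).card := by
  rw [Finset.prod_ite, Finset.prod_const_one, Finset.prod_const, one_mul]

theorem card_n2 (N : Finset ℕ) : (N.filter fun p => ¬ sq2 p).card = (sI N).card + (sB N).card := by
  rw [sI, sB, ← Finset.card_union_of_disjoint]
  · congr 1
    ext p
    simp only [mem_filter, mem_union]
    by_cases h1 : sq2 p <;> by_cases h2 : sq7 p <;> simp [h1, h2]
  · rw [Finset.disjoint_left]
    intro p h1 h2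
    exact (mem_filter.1 h1).2.2 (mem_filter.1 h2).2.2

theorem card_n7 (N : Finset ℕ) : (N.filter fun p => ¬ sq7 p).card = (sI N).card + (sA N).card := by
  rw [sI, sA, ← Finset.card_union_of_disjoint]
  · congr 1
    ext p
    simp only [mem_filter, mem_union]
    by_cases h1 : sq2 p <;> by_cases h2 : sq7 p <;> simp [h1, h2]
  · rw [Finset.disjoint_left]
    intro p h1 h2
    exact (mem_filter.1 h1).2.1 (mem_filter.1 h2).2.1

theorem jpr2 {N : Finset ℕ} (hN : Pm N) : jacobiSym 2 (pr N) = (-1) ^ ((sI N).card + (sB N).card) := by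
  classical
  rw [← card_n2, ← prod_sgn]
  unfold pr
  induction N using Finset.induction_on with
  | empty => simp
  | insert a s ha ih =>
    have h1 := hN a (mem_insert_self a s)
    have h2 : Pm s := fun p hp => hN p (mem_insert_of_mem hp)
    haveI : NeZero a := ⟨h1.1.ne_zero⟩
    haveI : NeZero (∏ p ∈ s, p) := ⟨Finset.prod_ne_zero_iff.2 fun p hp => (h2 p hp).1.ne_zero⟩
    rw [Finset.prod_insert ha, Finset.prod_insert ha, jacobiSym.mul_right, ih h2,
      jac2 h1.1 h1.2.1]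

theorem jpr7 {N : Finset ℕ} (hN : Pm N) : jacobiSym (pr N : ℕ) 7 = (-1) ^ ((sI N).card + (sA N).card) := by
  classical
  rw [← card_n7, ← prod_sgn]
  unfold pr
  induction N using Finset.induction_on with
  | empty => simp
  | insert a s ha ih =>
    have h1 := hN a (mem_insert_self a s)
    have h2 : Pm s := fun p hp => hN p (mem_insert_of_mem hp)
    rw [Finset.prod_insert ha, Finset.prod_insert ha, Nat.cast_mul, jacobiSym.mul_left, ih h2,
      jac7 h1.1 h1.2.2]

theorem pr_odd {N : Finset ℕ} (hN : Pm N) : Odd (pr N) := by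
  classical
  unfold pr
  refine Finset.prod_induction _ Odd (fun a b ha hb => ha.mul hb) odd_one fun p hp => ?_
  exact (hN p hp).1.odd_of_ne_two (hN p hp).2.1

/-- the parity of the number of the primes of type `I` or `B` -/
theorem par_B {N : Finset ℕ} (hN : Pm N) {r : ℕ} (hr : pr N % 8 = r) :
    ((sI N).card + (sB N).card) % 2 = if r = 3 ∨ r = 5 then 1 else 0 := by
  have h1 := jpr2 hN
  rw [jacobiSym.at_two (pr_odd hN), ZMod.χ₈_nat_eq_if_mod_eight] at h1
  have h2 := Nat.odd_iff.1 (pr_odd hN)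
  rcases Nat.even_or_odd ((sI N).card + (sB N).card) with h | h
  · rw [h.neg_one_pow] at h1
    rw [Nat.even_iff.1 h]
    split_ifs at h1 ⊢ <;> omega
  · rw [h.neg_one_pow] at h1
    rw [Nat.odd_iff.1 h]
    split_ifs at h1 ⊢ <;> omega

theorem pr_mod7 {N : Finset ℕ} (hN : Pm N) : pr N % 7 ≠ 0 := by
  intro h
  obtain ⟨q, hq, h7q⟩ := (Nat.Prime.prime (by norm_num : Nat.Prime 7)).exists_mem_finset_dvd
    (Nat.dvd_of_mod_eq_zero h)
  exact (hN q hq).2.2 ((Nat.prime_dvd_prime_iff_eq (by norm_num) (hN q hq).1).1 h7q).symm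

theorem par_A {N : Finset ℕ} (hN : Pm N) :
    ((sI N).card + (sA N).card) % 2 = if pr N % 7 = 1 ∨ pr N % 7 = 2 ∨ pr N % 7 = 4 then 0 else 1 := by
  have h1 := jpr7 hN
  rw [j7 _ (pr_mod7 hN)] at h1
  rcases Nat.even_or_odd ((sI N).card + (sA N).card) with h | h
  · rw [h.neg_one_pow] at h1
    rw [Nat.even_iff.1 h]
    split_ifs at h1 ⊢ <;> rfl
  · rw [h.neg_one_pow] at h1
    rw [Nat.odd_iff.1 h]
    split_ifs at h1 ⊢ <;> rfl

theorem K_par {N : Finset ℕ} (hN : Pm N) {r : ℕ} (h : K r (pr N)) :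
    ((sI N).card + (sB N).card) % 2 = (if r = 3 ∨ r = 5 then 1 else 0) ∧
    ((sI N).card + (sA N).card) % 2 = (if r = 3 ∨ r = 5 then 1 else 0) := by
  obtain ⟨h8, h7⟩ := h
  have h2 := Nat.odd_iff.1 (pr_odd hN)
  refine ⟨par_B hN h8, ?_⟩
  rw [par_A hN]
  split_ifs at h7 ⊢ <;> omega

/-- a balanced set is admissible -/
theorem K_of {N : Finset ℕ} (hN : Pm N) (hc : (sA N).card = (sB N).card) {r : ℕ}
    (h : pr N % 8 = r) : K r (pr N) := by
  have h1 := par_B hN h
  have h2 := par_A hN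
  have h3 := pr_mod7 hN
  have h4 := Nat.odd_iff.1 (pr_odd hN)
  have h5 := Nat.mod_lt (pr N) (show 0 < 7 by norm_num)
  rw [hc, h1] at h2
  refine ⟨h, ?_⟩
  split_ifs at h2 ⊢ <;> omega

theorem disj_SB_AI (N : Finset ℕ) : Disjoint (sS N ∪ sB N) (sA N ∪ sI N) := by
  rw [Finset.disjoint_left]
  intro p h1 h2
  unfold sS sB at h1
  unfold sA sI at h2
  simp only [mem_union, mem_filter] at h1 h2
  tauto

theorem union_SB_AI (N : Finset ℕ) : (sS N ∪ sB N) ∪ (sA N ∪ sI N) = N := by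
  ext p
  unfold sS sB sA sI
  simp only [mem_union, mem_filter]
  tauto

theorem pr_split (N : Finset ℕ) : pr N = (∏ q ∈ sS N ∪ sB N, q) * ∏ q ∈ sA N ∪ sI N, q := by
  rw [← Finset.prod_union (disj_SB_AI N), union_SB_AI]
  rfl

theorem card_SB (N : Finset ℕ) : (sS N ∪ sB N).card = (sS N).card + (sB N).card := by
  apply Finset.card_union_of_disjoint
  rw [Finset.disjoint_left]
  intro p h1 h2
  exact (mem_filter.1 h2).2.1 (mem_filter.1 h1).2.1

theorem card_AI (N : Finset ℕ) : (sA N ∪ sI N).card = (sA N).card + (sI N).card := by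
  apply Finset.card_union_of_disjoint
  rw [Finset.disjoint_left]
  intro p h1 h2
  exact (mem_filter.1 h2).2.1 (mem_filter.1 h1).2.1

theorem card_SA (N : Finset ℕ) : (sS N ∪ sA N).card = (sS N).card + (sA N).card := by
  apply Finset.card_union_of_disjoint
  rw [Finset.disjoint_left]
  intro p h1 h2
  exact (mem_filter.1 h2).2.2 (mem_filter.1 h1).2.2

end Pool.Agent.NH5.LK
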