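import Pool.Agent.NH5.LK.Neg2
import Pool.Agent.NH2.Defs2
import Pool.Agent.Z702.Main
import Pool.Agent.Y248.BSD14.Omega
import Pool.Agent.Z700.Main

/-!
# The value of the `L`-function of a twist from the sum of the modular symbols, both signs
-/

set_option autoImplicit false
set_option linter.style.haveILetI false

namespace Pool.Agent.NH5.LK

open Finset
open Pool.Agent.NH5.GD
open Pool.Agent.NH5.GC (sq_m7 sq_2)
open Pool.Agent.NH1 (DD Lp lg gX perm2 sS sI sA sB sq2 sq7 Pm K S_QR S_MAIN ex G Y Ph om ep0)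
open Pool.Agent.Z700 (pr X2 vec Ln n0 ep)
open Pool.Agent.TH841.SH.D
open Pool.Agent.Y687 (SS Symb2)
open Pool.Agent.Y687.N (SymbM)
open Pool.Agent.Y700 (WM EQ Omega IsL tamProd)
open Pool.Agent.W97.MT (II IsGloballyMinimal)
open Pool.Agent.Z704 (concl)

/-- the formula for the value of the `L`-function -/
def Val (D y : ℤ) : Prop :=
  IsGloballyMinimal (WM D) ∧ (∃ f, IsL (WM D) f) ∧
    ∀ f, IsL (WM D) f → (y ≠ 0 → f 1 ≠ 0) ∧ ∃ w : ℚ, w ≠ 0 ∧ padicValRat 2 w = 0 ∧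
      f 1 = (((w : ℝ) * (y : ℝ) ^ 2 * (Omega (WM D) * tamProd (WM D) /
        (Nat.card (AddCommGroup.torsion (EQ (WM D)).toAffine.Point) : ℝ) ^ 2) : ℝ) : ℂ)

/-- the positive twists -/
theorem pos_val {D : ℤ} (hD : Adm D) (hpos : 1 < D) {P S : Finset ℕ}
    (hPS : D.natAbs = (∏ q ∈ P, q) * ∏ q ∈ S, q)
    (hP : ∀ q ∈ P, q.Prime ∧ q ≠ 2 ∧ q ≠ 7 ∧ IsSquare (-7 : ZMod q))
    (hS : ∀ q ∈ S, q.Prime ∧ q ≠ 2 ∧ q ≠ 7 ∧ ¬ IsSquare (-7 : ZMod q)) {y : ℤ}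
    (hv : ∀ (s : ℚ → ℤ) (a : ℕ → ℤ), Symb2 s a → a 5 = 0 → ∃ o : ℤ, Odd o ∧
      SS s D.natAbs D.natAbs = 2 ^ (S.card + 2 * P.card) * (o * y ^ 2)) : Val D y := by
  classical
  have hM4 := hD.m4
  set n : ℕ := D.natAbs with hn'
  have hnM : (n : ℤ) = D := by omega
  have hsqM : Squarefree D := hD.sqf
  have hsqn : Squarefree n := Int.squarefree_natAbs.2 hsqM
  have h7 : ¬ (7 : ℤ) ∣ D := hD.n7
  have h7n : ¬ 7 ∣ n := by
    intro h
    apply h7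
    have h5 : (7 : ℤ) ∣ (n : ℤ) := by exact_mod_cast h
    rw [hnM] at h5
    exact h5
  have h14 : Nat.Coprime n 14 := by
    rw [show (14 : ℕ) = 2 * 7 by norm_num]
    refine Nat.Coprime.mul_right ?_ ?_
    · rw [Nat.coprime_comm, Nat.Prime.coprime_iff_not_dvd Nat.prime_two]
      omega
    · rw [Nat.coprime_comm, Nat.Prime.coprime_iff_not_dvd (by norm_num)]
      exact h7n
  have h4n : n % 4 = 1 := by omega
  obtain ⟨s, L, Op, Om, hOp, hOm, g2, g3, hLt, hsym, hs⟩ := Pool.Agent.Y700.exists_symb2'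
  obtain ⟨o, ho, e1⟩ := hv s _ hsym Pool.Agent.Z700.ap5
  obtain ⟨o3, ho3, e6⟩ := Pool.Agent.Y700.tam_gen Pool.Agent.Y809.BSD14.t_E0
    Pool.Agent.Y809.BSD14.t_TIN Pool.Agent.Y809.BSD14.t_TSP Pool.Agent.Y641.BSD14.t2
    Pool.Agent.Y641.BSD14.t7 hP hS (M := n) hPS h4n (by rw [hnM]; exact hsqM)
  rw [hnM] at e6
  have hM0 : D ≠ 0 := by omega
  have hM2 : 0 < D ^ 2 := by positivity
  have hab : (13 * D) ^ 2 - 4 * (128 * D ^ 2) < 0 := by nlinarith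
  obtain ⟨k, hk, a3⟩ := Pool.Agent.Z702.f_TORS (13 * D) (128 * D ^ 2) (by positivity) hab.ne
    (Pool.Agent.Z702.ns_b hM0) (Pool.Agent.Z702.ns_ab hM0)
  rw [(Pool.Agent.Z702.trn_WM Pool.Agent.Z702.f_TRN hM4).2.2] at a3
  obtain ⟨f0, ε, hf0, hε, hval⟩ := Pool.Agent.Y700.value (M := n) (Nat.odd_iff.2 (by omega)) hsqn
    (by omega) h4n h14 hs
  rw [hnM] at hf0
  have hnR : ((D : ℤ) : ℝ) = (n : ℝ) := by rw [← hnM]; push_cast; rfl
  have hΩ : Omega (WM D) = 2 * Op / Real.sqrt n := by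
    have := Pool.Agent.Y248.BSD14.t L Op Om hOp hOm g2 g3 hLt D hM4 (by omega)
    rw [this, hnR]
  have hMR : (0 : ℝ) < (n : ℝ) := by exact_mod_cast (by omega : 0 < n)
  have hεo : Odd ε := by rcases hε with rfl | rfl <;> decide
  exact concl Pool.Agent.Y814.BSD14.t_MIN hM4 hsqM h7 hf0 (V := (ε : ℝ) * (SS s n n : ℝ))
    (Op := Op) (r := Real.sqrt n) hOp.ne' (Real.sqrt_pos.2 hMR).ne' hval hΩ
    (e := S.card + 2 * P.card) (o1 := ε * o) (y := y) (hεo.mul ho) (by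
      rw [e1]
      push_cast
      ring) ho3 e6 hk a3

/-- the negative twists -/
theorem neg_val {D : ℤ} (hD : Adm D) (hneg : D < 0) {P S : Finset ℕ}
    (hPS : D.natAbs = (∏ q ∈ P, q) * ∏ q ∈ S, q)
    (hP : ∀ q ∈ P, q.Prime ∧ q ≠ 2 ∧ q ≠ 7 ∧ IsSquare (-7 : ZMod q))
    (hS : ∀ q ∈ S, q.Prime ∧ q ≠ 2 ∧ q ≠ 7 ∧ ¬ IsSquare (-7 : ZMod q)) {y : ℤ}
    (hv : ∀ (s : ℚ → ℤ) (a : ℕ → ℤ), SymbM s a → Odd (s (1 / 3)) → ∃ o : ℤ, Odd o ∧
      SS s D.natAbs D.natAbs = 2 ^ (S.card + 2 * P.card) * (o * y ^ 2)) : Val D y := by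
  classical
  have hM4 := hD.m4
  set n : ℕ := D.natAbs with hn'
  have hnM : (n : ℤ) = -D := by omega
  have hsqM : Squarefree D := hD.sqf
  have hsqn : Squarefree n := Int.squarefree_natAbs.2 hsqM
  have h7 : ¬ (7 : ℤ) ∣ D := hD.n7
  have h7n : ¬ 7 ∣ n := by
    intro h
    apply h7
    have h5 : (7 : ℤ) ∣ (n : ℤ) := by exact_mod_cast h
    rw [hnM] at h5
    exact (dvd_neg).1 h5
  have h14 : Nat.Coprime n 14 := by
    rw [show (14 : ℕ) = 2 * 7 by norm_num]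
    refine Nat.Coprime.mul_right ?_ ?_
    · rw [Nat.coprime_comm, Nat.Prime.coprime_iff_not_dvd Nat.prime_two]
      omega
    · rw [Nat.coprime_comm, Nat.Prime.coprime_iff_not_dvd (by norm_num)]
      exact h7n
  obtain ⟨t, sp, sm, L, Op, Om, hOp, hOm, g2, g3, hLt, htt, hs, hnegp, hperp, hsm, h13⟩ :=
    Pool.Agent.Z704.exists_symbM'
  obtain ⟨o, ho, e1⟩ := hv sm _ hsm h13
  have him : ∀ r : ℚ, (3 : ℝ) * (II r).im = sm r * Om := by
    intro r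
    have h := congrArg Complex.im (hs r)
    simpa using h
  obtain ⟨f0, ε, hf0, hε, hval⟩ := Pool.Agent.Z705.f_VAL D hneg hM4 hsqM (by omega) h14 sm Om him
  have hΩ := Pool.Agent.Z705.f_OMEGA L Op Om hOp hOm g2 g3 hLt D hM4 hneg
  obtain ⟨o3, ho3, e5⟩ := Pool.Agent.Z705.f_TAM Pool.Agent.Y809.BSD14.t_E0
    Pool.Agent.Y809.BSD14.t_TIN Pool.Agent.Y809.BSD14.t_TSP Pool.Agent.Y641.BSD14.t2
    Pool.Agent.Y641.BSD14.t7 P S hP hS D hPS hM4 hsqM
  have hM0 : D ≠ 0 := hneg.ne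
  have hM2 : 0 < D ^ 2 := by positivity
  have hab : (13 * D) ^ 2 - 4 * (128 * D ^ 2) < 0 := by nlinarith
  obtain ⟨k, hk, a3⟩ := Pool.Agent.Z702.f_TORS (13 * D) (128 * D ^ 2) (by positivity) hab.ne
    (Pool.Agent.Z702.ns_b hM0) (Pool.Agent.Z702.ns_ab hM0)
  rw [(Pool.Agent.Z702.trn_WM Pool.Agent.Z702.f_TRN hM4).2.2] at a3
  have hnR : (n : ℝ) = -(D : ℝ) := by exact_mod_cast hnM
  have hn0 : (0 : ℝ) < n := by
    have : 0 < n := by omega
    exact_mod_cast this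
  have hεo : Odd ε := by rcases hε with rfl | rfl <;> decide
  exact concl Pool.Agent.Y814.BSD14.t_MIN hM4 hsqM h7 hf0 (V := (ε : ℝ) * (SS sm n n : ℝ))
    (Op := Om) (r := Real.sqrt n) hOm.ne' (Real.sqrt_pos.2 hn0).ne' hval (by
      rw [hΩ]
      congr 2
      rw [hnR]) (e := S.card + 2 * P.card) (o1 := ε * o) (y := y) (hεo.mul ho) (by
      rw [e1]
      push_cast
      ring) (o3 := o3) ho3 e5 hk a3

theorem mem_P {N : Finset ℕ} (hN : Pm N) : ∀ q ∈ sS N ∪ sB N,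
    q.Prime ∧ q ≠ 2 ∧ q ≠ 7 ∧ IsSquare (-7 : ZMod q) := by
  intro q hq
  have h1 : q ∈ N ∧ sq7 q := by
    rcases mem_union.1 hq with h | h
    · exact ⟨(mem_filter.1 h).1, (mem_filter.1 h).2.2⟩
    · exact ⟨(mem_filter.1 h).1, (mem_filter.1 h).2.2⟩
  have h2 := hN q h1.1
  exact ⟨h2.1, h2.2.1, h2.2.2, (sq_m7 h2.1 h2.2.1 h2.2.2).2 h1.2⟩

theorem mem_S {N : Finset ℕ} (hN : Pm N) : ∀ q ∈ sA N ∪ sI N,
    q.Prime ∧ q ≠ 2 ∧ q ≠ 7 ∧ ¬ IsSquare (-7 : ZMod q) := by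
  intro q hq
  have h1 : q ∈ N ∧ ¬ sq7 q := by
    rcases mem_union.1 hq with h | h
    · exact ⟨(mem_filter.1 h).1, (mem_filter.1 h).2.2⟩
    · exact ⟨(mem_filter.1 h).1, (mem_filter.1 h).2.2⟩
  have h2 := hN q h1.1
  exact ⟨h2.1, h2.2.1, h2.2.2, fun h => h1.2 ((sq_m7 h2.1 h2.2.1 h2.2.2).1 h)⟩

/-- **all classes**: `D = ± pr N` is `1 mod 4` -/
theorem full_all (hQR : S_QR) (hM : S_MAIN) (h6 : Pool.Agent.NH2.S_VI) (h7 : Pool.Agent.NH2.S_VII)
    (h8 : Pool.Agent.NH2.S_VIII) (hA2 : Pool.Agent.NH1.S_A2) {N : Finset ℕ} (hN : Pm N)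
    (hne : N.Nonempty) {r : ℕ} (hr : r = 1 ∨ r = 3 ∨ r = 5 ∨ r = 7) (hK : K r (pr N))
    (hc : (sB N).card ≤ (sA N).card) {D : ℤ} (hDn : D.natAbs = pr N) (h4 : D % 4 = 1) : Full D := by
  have hAd := adm_D hN hDn h4
  have h8' := hK.1
  obtain ⟨pB, pA⟩ := K_par hN hK
  have hpos : 1 < pr N := by
    obtain ⟨p, hp⟩ := hne
    have h1 : p ∣ pr N := Finset.dvd_prod_of_mem _ hp
    have h2 : 0 < pr N := (pr_odd hN).pos
    exact lt_of_lt_of_le (hN p hp).1.one_lt (Nat.le_of_dvd h2 h1)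
  have h7' := hK.2
  have hsgn : (r = 1 ∨ r = 5) ∧ D = pr N ∨ (r = 3 ∨ r = 7) ∧ D = -(pr N : ℤ) := by
    rcases Int.natAbs_eq D with h | h <;> rw [hDn] at h <;> omega
  have hsc : ∃ σ : ZMod 7, (r = 1 ∨ r = 7) → σ ^ 2 = (pr N : ZMod 7) := by
    by_cases hr2 : r = 1 ∨ r = 7
    · rw [if_pos hr2] at h7'
      have e : ((pr N : ℕ) : ZMod 7) = ((pr N % 7 : ℕ) : ZMod 7) := (ZMod.natCast_mod _ 7).symm
      rw [e]
      rcases h7' with h | h | h <;> rw [h]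
      · exact ⟨1, fun _ => by decide⟩
      · exact ⟨3, fun _ => by decide⟩
      · exact ⟨2, fun _ => by decide⟩
    · exact ⟨0, fun h => absurd h hr2⟩
  obtain ⟨σ, hσ⟩ := hsc
  have hz : ∀ {f : ℕ → ZMod 2} {u : ℤ}, DD f N = DD gX N →
      ((sA N).card = (sB N).card → (u : ZMod 2) = DD f N) → _ := fun {f} {u} hf hu =>
    odd_y hN hDn h4 hQR (f := f) hf hc (by split_ifs at pA pB <;> omega) hu
  have hfin : ∀ {u : ℤ}, ((sA N).card = (sB N).card → (u : ZMod 2) = DD gX N) →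
      Val D (2 ^ (((sA N).card - (sB N).card) / 2) * u) → Full D := by
    intro u hu hV
    obtain ⟨y1, y2⟩ := hz rfl hu
    obtain ⟨c1, c2, c3⟩ := hV
    exact ⟨c1, c2, _, y1, y2, c3⟩
  have hhh : (fun p => Pool.Agent.NH1.hh 3 p) = gX := by
    funext p
    unfold Pool.Agent.NH1.hh
    rw [if_pos rfl]
  have hmax : ex N = (sS N).card + ((sI N).card + (sA N).card + (sB N).card + (sA N).card) / 2 := by
    unfold ex
    rw [max_eq_left hc]
  have hpow : ∀ {e : ℕ}, e = 2 * ex N - ((sA N).card - (sB N).card) →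
      (sA N).card - (sB N).card ≤ 2 * ex N → ((sA N).card - (sB N).card) % 2 = 0 → ∀ u : ℤ,
      (2 ^ ex N * u) ^ 2 = 2 ^ e * (2 ^ (((sA N).card - (sB N).card) / 2) * u) ^ 2 := by
    intro e he hle hev u
    rw [mul_pow, mul_pow, ← pow_mul, ← pow_mul, ← mul_assoc, ← pow_add]
    congr 2
    omega
  rcases hr with rfl | rfl | rfl | rfl
  · -- `K 1`
    have hDp : D = pr N := by
      rcases hsgn with h | h
      · exact h.2
      · exact absurd h.1 (by norm_num)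
    obtain ⟨c, hcc⟩ := hA2 3 N σ (Or.inl rfl) hN (Or.inl hK) (hσ (Or.inl rfl))
    have hcc' : ∀ (n : ℕ) (β : ZMod 7), 0 < n → (pr N * n) % 8 = 3 →
      Y 3 N ((pr N * n : ℕ) : ℤ) (σ * β) = c * G n β := hcc
    obtain ⟨u, hu1, hu2⟩ := hM.1 3 N (Or.inl rfl) hN (Or.inl hK) σ c (hσ (Or.inl rfl)) hcc'
    rw [show Pool.Agent.NH1.hh 3 = gX from hhh] at hu2
    refine hfin hu2 (pos_val hAd (by rw [hDp]; exact_mod_cast hpos) (P := sS N ∪ sB N)
      (S := sA N ∪ sI N) (by rw [hDn]; exact pr_split N) (mem_P hN) (mem_S hN) ?_)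
    intro s a hs h5
    refine ⟨s 0, hs.odd0, ?_⟩
    rw [hDn, h6 s a hs h5 N hN hne hK σ c (hσ (Or.inl rfl)) hcc', hu1, card_AI, card_SB]
    norm_num at pA pB
    rw [hpow (e := (sA N).card + (sI N).card + 2 * ((sS N).card + (sB N).card)) (by omega)
      (by omega) (by omega)]
    ring
  · -- `K 3`
    have hDp : D = -(pr N : ℤ) := by
      rcases hsgn with h | h
      · exact absurd h.1 (by norm_num)
      · exact h.2
    rw [hDp]
    exact full_neg hQR hM hN hK hc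
  · -- `K 5`
    have hDp : D = pr N := by
      rcases hsgn with h | h
      · exact h.2
      · exact absurd h.1 (by norm_num)
    rw [if_neg (by norm_num)] at h7'
    obtain ⟨β, hβ0, hβ⟩ := ex_beta h7'
    obtain ⟨u, hu1, hu2⟩ := hM.2 N hN (Or.inr hK) β hβ
    refine hfin hu2 (pos_val hAd (by rw [hDp]; exact_mod_cast hpos) (P := sS N ∪ sB N)
      (S := sA N ∪ sI N) (by rw [hDn]; exact pr_split N) (mem_P hN) (mem_S hN) ?_)
    intro s a hs h5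
    refine ⟨s 0, hs.odd0, ?_⟩
    rw [hDn, h7 s a hs h5 N hN hK β hβ, hu1, card_AI, card_SB]
    norm_num at pA pB
    have := hpow (e := (sA N).card + (sI N).card + 2 * ((sS N).card + (sB N).card) - 1) (by omega)
      (by omega) (by omega) u
    rw [this]
    have e1 : (2 : ℤ) ^ ((sA N).card + (sI N).card + 2 * ((sS N).card + (sB N).card)) =
        2 * 2 ^ ((sA N).card + (sI N).card + 2 * ((sS N).card + (sB N).card) - 1) := by
      rw [← pow_succ']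
      congr 1
      omega
    rw [e1]
    ring
  · -- `K 7`
    have hDp : D = -(pr N : ℤ) := by
      rcases hsgn with h | h
      · exact absurd h.1 (by norm_num)
      · exact h.2
    obtain ⟨c, hcc⟩ := hA2 3 N σ (Or.inl rfl) hN (Or.inr hK) (hσ (Or.inr rfl))
    have hcc' : ∀ (n : ℕ) (β : ZMod 7), 0 < n → (pr N * n) % 8 = 3 →
      Y 3 N ((pr N * n : ℕ) : ℤ) (σ * β) = c * G n β := hcc
    obtain ⟨u, hu1, hu2⟩ := hM.1 3 N (Or.inl rfl) hN (Or.inr hK) σ c (hσ (Or.inr rfl)) hcc'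
    rw [show Pool.Agent.NH1.hh 3 = gX from hhh] at hu2
    refine hfin hu2 (neg_val hAd (by rw [hDp]; omega) (P := sS N ∪ sB N)
      (S := sA N ∪ sI N) (by rw [hDn]; exact pr_split N) (mem_P hN) (mem_S hN) ?_)
    intro s a hs h13
    refine ⟨s (1 / 3), h13, ?_⟩
    rw [hDn, h8 s a hs N hN hK σ c (hσ (Or.inr rfl)) hcc', hu1, card_AI, card_SB]
    norm_num at pA pB
    rw [hpow (e := (sA N).card + (sI N).card + 2 * ((sS N).card + (sB N).card)) (by omega)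
      (by omega) (by omega)]
    ring

end Pool.Agent.NH5.LK
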