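import Pool.Agent.NH5.LK.Perm
import Pool.Agent.NH5.GC.Good
import Pool.Agent.NH1.Sub

/-!
# The determinants of project NH1 and the matrices of the descent
-/

set_option autoImplicit false
set_option linter.style.haveILetI false

namespace Pool.Agent.NH5.LK

open Finset
open Pool.Agent.NH5.GD
open Pool.Agent.NH5.GC (sq_m7 sq_2)
open Pool.Agent.NH1 (DD Lp lg gX perm2 sS sI sA sB sq2 sq7 Pm S_QR)
open Pool.Agent.Z700 (pr X2)

theorem mod4_prod (T : Finset ℕ) (h : ∀ q ∈ T, q % 2 = 1) : (∏ q ∈ T, st q) % 4 = 1 := by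
  classical
  induction T using Finset.induction_on with
  | empty => rfl
  | insert a s ha ih =>
    rw [Finset.prod_insert ha, Int.mul_emod, ih fun q hq => h q (mem_insert_of_mem hq)]
    have h1 := h a (mem_insert_self a s)
    have h2 : st a % 4 = 1 := by
      unfold st
      split_ifs with h3
      · omega
      · omega
    rw [h2]
    rfl

section
variable {N : Finset ℕ} {D : ℤ} (hN : Pm N) (hD : D.natAbs = pr N) (h4 : D % 4 = 1)
include hN hD h4

theorem D_st : D = ∏ q ∈ N, st q := by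
  have h1 := mod4_prod N fun q hq => by
    have := (hN q hq).1.eq_two_or_odd
    have := (hN q hq).2.1
    omega
  have h2 : D.natAbs = (∏ q ∈ N, st q).natAbs := by
    rw [natAbs_prod_st, hD]
    rfl
  rcases Int.natAbs_eq_natAbs_iff.1 h2 with h | h
  · exact h
  · exfalso
    rw [h] at h4
    omega

theorem adm_D : Adm D where
  sqf := by
    rw [← Int.squarefree_natAbs, hD]
    apply Finset.squarefree_prod_of_pairwise_isCoprime
    · intro p hp q hq hpq
      exact Nat.coprime_iff_isRelPrime.1 ((Nat.coprime_primes (hN p hp).1 (hN q hq).1).2 hpq)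
    · intro p hp
      exact (hN p hp).1.squarefree
  m4 := h4
  n7 := by
    intro h
    have h1 : (7 : ℤ).natAbs ∣ D.natAbs := Int.natAbs_dvd_natAbs.2 h
    rw [hD] at h1
    obtain ⟨q, hq, h7q⟩ := (Nat.Prime.prime (by norm_num : Nat.Prime 7)).exists_mem_finset_dvd h1
    have h2 := (Nat.prime_dvd_prime_iff_eq (by norm_num) (hN q hq).1).1 h7q
    exact (hN q hq).2.2 h2.symm

omit h4 in
theorem dvd_D {p : ℕ} : p.Prime ∧ (p : ℤ) ∣ D ↔ p ∈ N := by
  rw [Int.natCast_dvd, hD]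
  constructor
  · rintro ⟨hp, h⟩
    obtain ⟨q, hq, hpq⟩ := (Nat.Prime.prime hp).exists_mem_finset_dvd h
    have h2 := (Nat.prime_dvd_prime_iff_eq hp (hN q hq).1).1 hpq
    exact h2 ▸ hq
  · intro h
    exact ⟨(hN p h).1, Finset.dvd_prod_of_mem _ h⟩

theorem Rw_eq : Rw D = sS N ∪ sA N := by
  ext p
  rw [mem_Rw (adm_D hN hD h4).n0, ← and_assoc, dvd_D hN hD, mem_union, sS, sA, mem_filter,
    mem_filter]
  constructor
  · rintro ⟨h1, h2⟩
    have h3 : sq2 p := (sq_2 (hN p h1).1 (hN p h1).2.1).1 h2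
    by_cases h4 : sq7 p
    · exact Or.inl ⟨h1, h3, h4⟩
    · exact Or.inr ⟨h1, h3, h4⟩
  · rintro (⟨h1, h3, -⟩ | ⟨h1, h3, -⟩)
    · exact ⟨h1, (sq_2 (hN p h1).1 (hN p h1).2.1).2 h3⟩
    · exact ⟨h1, (sq_2 (hN p h1).1 (hN p h1).2.1).2 h3⟩

theorem Cw_eq : Cw D = sS N ∪ sB N := by
  ext p
  rw [mem_Cw (adm_D hN hD h4).n0, ← and_assoc, dvd_D hN hD, mem_union, sS, sB, mem_filter,
    mem_filter]
  constructor
  · rintro ⟨h1, h2⟩
    have h3 : sq7 p := (sq_m7 (hN p h1).1 (hN p h1).2.1 (hN p h1).2.2).1 h2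
    by_cases h4 : sq2 p
    · exact Or.inl ⟨h1, h4, h3⟩
    · exact Or.inr ⟨h1, h4, h3⟩
  · rintro (⟨h1, -, h3⟩ | ⟨h1, -, h3⟩)
    · exact ⟨h1, (sq_m7 (hN p h1).1 (hN p h1).2.1 (hN p h1).2.2).2 h3⟩
    · exact ⟨h1, (sq_m7 (hN p h1).1 (hN p h1).2.1 (hN p h1).2.2).2 h3⟩

/-- the symbols -/
theorem lg_q2 {p q : ℕ} (hq : q ∈ N) (hp : p ∈ N) (hpq : p ≠ q) :
    lg p q = q2 ((p : ℕ) : ZMod q) := by
  haveI : Fact q.Prime := ⟨(hN q hq).1⟩
  have h0 : (((p : ℕ) : ℤ) : ZMod q) ≠ 0 := by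
    rw [Int.cast_natCast, Ne, ZMod.natCast_eq_zero_iff]
    intro h
    exact hpq ((Nat.prime_dvd_prime_iff_eq (hN q hq).1 (hN p hp).1).1 h).symm
  unfold lg q2
  rw [← jacobiSym.legendreSym.to_jacobiSym]
  have h1 := legendreSym.eq_neg_one_iff q (a := ((p : ℕ) : ℤ))
  rw [Int.cast_natCast] at h1
  by_cases h2 : IsSquare ((p : ℕ) : ZMod q)
  · rw [if_pos h2, if_neg]
    intro h3
    exact (h1.1 h3) h2
  · rw [if_neg h2, if_pos (h1.2 h2)]

/-- the diagonal entries -/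
theorem dg_D (hQR : S_QR) {p : ℕ} (hp : p ∈ N) (h2 : sq2 p) (h7 : sq7 p) :
    dg D p = gX p + ∑ t ∈ N.erase p, lg p t := by
  classical
  have hA := adm_D hN hD h4
  have hpp := (hN p hp).1
  haveI : Fact p.Prime := ⟨hpp⟩
  have p2 := (hN p hp).2.1
  have p7 := (hN p hp).2.2
  have s2 : IsSquare (2 : ZMod p) := (sq_2 hpp p2).2 h2
  have s7 : IsSquare (-7 : ZMod p) := (sq_m7 hpp p2 p7).2 h7
  have hpD := ((dvd_D hN hD).2 hp).2
  obtain ⟨ρ, hρ⟩ := ex_root1 (m := (1 : ZMod p)) p2 s7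
  set m : ZMod p := ((D / p : ℤ) : ZMod p) with hm
  have hm0 : m ≠ 0 := hA.M0 hpp hpD
  have hρ0 : ρ ≠ 0 := root_ne p2 one_ne_zero hρ
  have hx : (m * ρ) ^ 2 + 13 * m * (m * ρ) + 128 * m ^ 2 = 0 := by
    linear_combination m ^ 2 * hρ
  rw [dg_eq hA.sqf hpD p2 s2 hx, q2_mul p2 hm0 hρ0]
  -- the root
  obtain ⟨w, hw⟩ := s2
  have hy : (13 + 16 * w) ^ 2 - 26 * (1 : ZMod p) * (13 + 16 * w) - 343 * (1 : ZMod p) ^ 2 = 0 := by
    linear_combination -256 * hw
  have hy0 := root_ne2 p7 (one_ne_zero (α := ZMod p)) hy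
  have h1 := sq_xy (m := (1 : ZMod p)) ⟨w, hw⟩ hρ hy
  have hn1 : (-1 : ZMod p) ≠ 0 := neg_ne_zero.2 one_ne_zero
  rw [← q2_eq_zero, q2_mul p2 hn1 (mul_ne_zero hρ0 hy0), q2_mul p2 hρ0 hy0] at h1
  have hgx : q2 (13 + 16 * w) = gX p := by
    have h3 := hQR p hpp h2 h7 w (by rw [pow_two]; exact hw.symm)
    unfold q2 gX
    by_cases hX : X2 p
    · rw [if_neg (fun h => (h3.1 h) hX), if_pos hX]
    · rw [if_pos (h3.2 hX), if_neg hX]
  rw [hgx] at h1
  -- the cofactor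
  have hcof : D = p * (sg p * ∏ q ∈ N.erase p, st q) := by
    have h5 := D_st hN hD h4
    rw [← Finset.mul_prod_erase N st hp, st_eq p] at h5
    linear_combination h5
  have hmv : m = ((sg p * ∏ q ∈ N.erase p, st q : ℤ) : ZMod p) := by
    rw [hm]
    congr 1
    conv_lhs => rw [hcof]
    exact Int.mul_ediv_cancel_left _ (by exact_mod_cast hpp.ne_zero)
  have hq0 : ∀ q ∈ N.erase p, ((st q : ℤ) : ZMod p) ≠ 0 := by
    intro q hq
    rw [st_eq]
    push_cast
    refine mul_ne_zero sg_ne ?_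
    rw [Ne, ZMod.natCast_eq_zero_iff]
    intro h
    have h2 := (Nat.prime_dvd_prime_iff_eq hpp (hN q (mem_of_mem_erase hq)).1).1 h
    exact (mem_erase.1 hq).1 h2.symm
  have hq2m : q2 m = q2 (-1 : ZMod p) + ∑ t ∈ N.erase p, lg p t := by
    rw [hmv]
    push_cast
    rw [q2_mul p2 sg_ne (Finset.prod_ne_zero_iff.2 hq0), q2_sg p2, q2_prod p2 _ _ hq0]
    congr 1
    refine sum_congr rfl fun t ht => ?_
    haveI : Fact t.Prime := ⟨(hN t (mem_of_mem_erase ht)).1⟩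
    rw [q2_st p2 (hN t (mem_of_mem_erase ht)).2.1 (mem_erase.1 ht).1.symm]
    rw [lg_q2 hN hD h4 (mem_of_mem_erase ht) hp (mem_erase.1 ht).1.symm]
  rw [hq2m]
  have h8 : q2 (-1 : ZMod p) + q2 ρ = gX p := by
    have h9 : q2 (-1 : ZMod p) + q2 ρ + gX p = 0 := by rw [← h1]; ring
    exact zmod2_add.1 h9
  rw [← h8]
  ring

/-- **the link** -/
theorem link (hQR : S_QR) : DD gX N = 1 ↔ Good D := by
  classical
  have hR := Rw_eq hN hD h4
  have hC := Cw_eq hN hD h4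
  have hent : ∀ p ∈ Cw D, ∀ q ∈ Rw D, Lp lg gX N p q = ent D q p := by
    intro p hp q hq
    have hp' := hp
    have hq' := hq
    rw [hC, mem_union] at hp'
    rw [hR, mem_union] at hq'
    have hpN : p ∈ N := by
      rcases hp' with h | h
      · exact (mem_filter.1 h).1
      · exact (mem_filter.1 h).1
    have hqN : q ∈ N := by
      rcases hq' with h | h
      · exact (mem_filter.1 h).1
      · exact (mem_filter.1 h).1
    unfold Lp ent
    by_cases hpq : p = q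
    · subst hpq
      rw [if_pos rfl, if_pos rfl]
      have h7 : sq7 p := by
        rcases hp' with h | h
        · exact (mem_filter.1 h).2.2
        · exact (mem_filter.1 h).2.2
      have h2 : sq2 p := by
        rcases hq' with h | h
        · exact (mem_filter.1 h).2.1
        · exact (mem_filter.1 h).2.1
      exact (dg_D hN hD h4 hQR hpN h2 h7).symm
    · rw [if_neg hpq, if_neg (Ne.symm hpq)]
      exact lg_q2 hN hD h4 hqN hpN hpq
  unfold DD
  rw [← hR, ← hC, perm2_iff, good_iff]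
  have hM : (Matrix.of fun (p : Cw D) (q : Rw D) => Lp lg gX N p q) = (MD D).transpose := by
    ext p q
    rw [Matrix.transpose_apply]
    unfold MD
    rw [Matrix.of_apply, Matrix.of_apply]
    exact hent p p.2 q q.2
  rw [hM]
  exact ⟨fun h => ⟨h.1.symm, h.2⟩, fun h => ⟨h.1.symm, h.2⟩⟩

end

end Pool.Agent.NH5.LK
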