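import Pool.Agent.NH5.LK.Link
import Pool.Agent.Z704.MainN
import Pool.Agent.Z702.Fin
import Pool.Agent.Y17.N.Fin
import Pool.Agent.Y17.N.DefN
import Pool.Agent.Z705.Fin2
import Pool.Agent.Y809.BSD14.Tam3
import Pool.Agent.Y814.BSD14.SEL
import Pool.Agent.Y641.BSD14.T2
import Pool.Agent.Y641.BSD14.T7

/-!
# The negative twists: the value of the `L`-function and the determinant
-/

set_option autoImplicit false
set_option linter.style.haveILetI false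

namespace Pool.Agent.NH5.LK

open Finset
open Pool.Agent.NH5.GD
open Pool.Agent.NH5.GC (sq_m7 sq_2)
open Pool.Agent.NH1 (DD Lp lg gX perm2 sS sI sA sB sq2 sq7 Pm K S_QR S_MAIN ex G Y Ph om ep0)
open Pool.Agent.Z700 (pr X2 vec Ln n0 ep)
open Pool.Agent.TH841.SH.D
open Pool.Agent.Y687 (SS)
open Pool.Agent.Y687.N (Gn Def)
open Pool.Agent.Y700 (WM EQ Omega IsL tamProd)
open Pool.Agent.W97.MT (II IsGloballyMinimal)
open Pool.Agent.Z704 (concl)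

/-- the value of the `L`-function of a negative twist -/
theorem neg_core {D : ℤ} (hD : Adm D) (hneg : D < 0) (h8 : D.natAbs % 8 = 3)
    (hj : jacobiSym 7 D.natAbs = 1) {P S : Finset ℕ} (hPS : D.natAbs = (∏ q ∈ P, q) * ∏ q ∈ S, q)
    (hP : ∀ q ∈ P, q.Prime ∧ q ≠ 2 ∧ q ≠ 7 ∧ IsSquare (-7 : ZMod q))
    (hS : ∀ q ∈ S, q.Prime ∧ q ≠ 2 ∧ q ≠ 7 ∧ ¬ IsSquare (-7 : ZMod q)) {g y : ℤ} {a : ℕ}
    (hDf : Def D.natAbs g) (hga : g = 2 ^ a * y) (ha : 2 * a + 1 = S.card + 2 * P.card) :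
    IsGloballyMinimal (WM D) ∧ (∃ f, IsL (WM D) f) ∧
      ∀ f, IsL (WM D) f → (y ≠ 0 → f 1 ≠ 0) ∧ ∃ w : ℚ, w ≠ 0 ∧ padicValRat 2 w = 0 ∧
        f 1 = (((w : ℝ) * (y : ℝ) ^ 2 * (Omega (WM D) * tamProd (WM D) /
          (Nat.card (AddCommGroup.torsion (EQ (WM D)).toAffine.Point) : ℝ) ^ 2) : ℝ) : ℂ) := by
  classical
  have hM4 := hD.m4
  set n : ℕ := D.natAbs with hn'
  have hnM : (n : ℤ) = -D := by omega
  have hsqM : Squarefree D := hD.sqf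
  have hsqn : Squarefree n := Int.squarefree_natAbs.2 hsqM
  have hGn : Gn n := ⟨hsqn, h8⟩
  have h7 : ¬ (7 : ℤ) ∣ D := hD.n7
  have h7n : ¬ 7 ∣ n := by
    intro h
    apply h7
    have h5 : (7 : ℤ) ∣ (n : ℤ) := by exact_mod_cast h
    rw [hnM] at h5
    exact (dvd_neg).1 h5
  have h14 : Nat.Coprime n 14 := by
    rw [show (14 : ℕ) = 2 * 7 by norm_num]
    refine Nat.Coprime.mul_right ?_ ?_
    · rw [Nat.coprime_comm, Nat.Prime.coprime_iff_not_dvd Nat.prime_two]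
      omega
    · rw [Nat.coprime_comm, Nat.Prime.coprime_iff_not_dvd (by norm_num)]
      exact h7n
  obtain ⟨t, sp, sm, L, Op, Om, hOp, hOm, g2, g3, hLt, htt, hs, hnegp, hperp, hsm, h13⟩ :=
    Pool.Agent.Z704.exists_symbM'
  have hval := Pool.Agent.Y687.N.SS_value Pool.Agent.Y687.N.f_FORM Pool.Agent.Y687.N.f_LVL2
    Pool.Agent.Y687.N.f_C1B Pool.Agent.Y687.N.f_C21 Pool.Agent.Y687.N.f_C27
    Pool.Agent.Y687.N.f_CARD hGn h7n hj hsm hDf
  have him : ∀ r : ℚ, (3 : ℝ) * (II r).im = sm r * Om := by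
    intro r
    have h := congrArg Complex.im (hs r)
    simpa using h
  obtain ⟨f0, ε, hf0, hε, hv⟩ := Pool.Agent.Z705.f_VAL D hneg hM4 hsqM (by omega) h14 sm Om him
  have hΩ := Pool.Agent.Z705.f_OMEGA L Op Om hOp hOm g2 g3 hLt D hM4 hneg
  obtain ⟨o3, ho3, e5⟩ := Pool.Agent.Z705.f_TAM Pool.Agent.Y809.BSD14.t_E0
    Pool.Agent.Y809.BSD14.t_TIN Pool.Agent.Y809.BSD14.t_TSP Pool.Agent.Y641.BSD14.t2
    Pool.Agent.Y641.BSD14.t7 P S hP hS D hPS hM4 hsqM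
  have hM0 : D ≠ 0 := hneg.ne
  have hM2 : 0 < D ^ 2 := by positivity
  have hab : (13 * D) ^ 2 - 4 * (128 * D ^ 2) < 0 := by nlinarith
  obtain ⟨k, hk, a3⟩ := Pool.Agent.Z702.f_TORS (13 * D) (128 * D ^ 2) (by positivity) hab.ne
    (Pool.Agent.Z702.ns_b hM0) (Pool.Agent.Z702.ns_ab hM0)
  rw [(Pool.Agent.Z702.trn_WM Pool.Agent.Z702.f_TRN hM4).2.2] at a3
  have hnR : (n : ℝ) = -(D : ℝ) := by exact_mod_cast hnM
  have hn0 : (0 : ℝ) < n := by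
    have : 0 < n := by omega
    exact_mod_cast this
  have hεo : Odd ε := by rcases hε with rfl | rfl <;> decide
  exact concl Pool.Agent.Y814.BSD14.t_MIN hM4 hsqM h7 hf0 (V := (ε : ℝ) * (SS sm n n : ℝ))
    (Op := Om) (r := Real.sqrt n) hOm.ne' (Real.sqrt_pos.2 hn0).ne' (by rw [hv]) (by
      rw [hΩ]
      congr 2
      rw [hnR]) (e := 2 * a + 1) (o1 := ε * sm (1 / 3)) (y := y) (hεo.mul h13) (by
      rw [hval, hga]
      push_cast
      ring) (o3 := o3) ho3 (by rw [e5, ha]) hk a3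

end Pool.Agent.NH5.LK
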