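import Pool.Agent.NH5.LK.Neg
import Pool.Agent.NH5.LK.Cnt

/-!
# The negative twists: the structure theorem gives the formula modulo two
-/

set_option autoImplicit false
set_option linter.style.haveILetI false

namespace Pool.Agent.NH5.LK

open Finset
open Pool.Agent.NH5.GD
open Pool.Agent.NH5.GC (sq_m7 sq_2)
open Pool.Agent.NH1 (DD Lp lg gX perm2 sS sI sA sB sq2 sq7 Pm K S_QR S_MAIN ex G Y Ph om ep0)
open Pool.Agent.Z700 (pr X2 vec Ln n0 ep)
open Pool.Agent.TH841.SH.D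
open Pool.Agent.Y687 (SS)
open Pool.Agent.Y687.N (Gn Def)
open Pool.Agent.Y700 (WM EQ Omega IsL tamProd)
open Pool.Agent.W97.MT (II IsGloballyMinimal)

/-- the coordinates of the vectors of norm `3 mod 8` are odd -/
theorem ep0_eq {n : ℕ} (h8 : n % 8 = 3) {v : Pool.Agent.Z700.V3} (hv : v ∈ vec (n : ℤ)) :
    ep0 v = ep v := by
  have h : dotProduct v v = (n : ℤ) := (Finset.mem_filter.1 hv).2
  unfold ep0
  rw [if_pos]
  have e : v 0 * v 0 + v 1 * v 1 + v 2 * v 2 = (n : ℤ) := by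
    rw [← h]
    simp [dotProduct, Fin.sum_univ_three]
  have key : ∀ a : ℤ, a % 2 = 0 → (a * a) % 8 = 0 ∨ (a * a) % 8 = 4 := by
    intro a ha
    obtain ⟨k, rfl⟩ : ∃ k, a = 2 * k := ⟨a / 2, by omega⟩
    have e1 : 2 * k * (2 * k) = 4 * (k * k) := by ring
    rw [e1]
    omega
  have key1 : ∀ a : ℤ, a % 2 = 1 → (a * a) % 8 = 1 := by
    intro a ha
    obtain ⟨k, rfl⟩ : ∃ k, a = 2 * k + 1 := ⟨a / 2, by omega⟩
    obtain ⟨t, ht⟩ := Int.even_mul_succ_self k
    have e1 : (2 * k + 1) * (2 * k + 1) = 8 * t + 1 := by linear_combination 4 * ht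
    rw [e1]
    omega
  have h8' : (n : ℤ) % 8 = 3 := by omega
  rcases Int.emod_two_eq_zero_or_one (v 0) with h0 | h0 <;>
    rcases Int.emod_two_eq_zero_or_one (v 1) with h1 | h1 <;>
    rcases Int.emod_two_eq_zero_or_one (v 2) with h2 | h2 <;>
    first
    | exact ⟨h0, h1, h2⟩
    | (exfalso
       have a0 := key (v 0)
       have a1 := key (v 1)
       have a2 := key (v 2)
       have b0 := key1 (v 0)
       have b1 := key1 (v 1)
       have b2 := key1 (v 2)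
       omega)

theorem G_eq {n : ℕ} (h8 : n % 8 = 3) (β : ZMod 7) : G n β = Pool.Agent.Y17.N.g0 (n : ℤ) β := by
  unfold G Y Pool.Agent.Y17.N.g0 Ph om
  rw [h8]
  refine Finset.sum_congr rfl fun v hv => ?_
  rw [Finset.prod_empty, mul_one, if_pos rfl]
  exact ep0_eq h8 (Finset.mem_filter.1 hv).1

theorem ex_beta {n : ℕ} (h : n % 7 = 3 ∨ n % 7 = 5 ∨ n % 7 = 6) :
    ∃ β : ZMod 7, β ≠ 0 ∧ β ^ 2 = -(n : ZMod 7) := by
  have h7 : (7 : ZMod 7) = 0 := by decide
  have e : (n : ZMod 7) = ((n % 7 : ℕ) : ZMod 7) := (ZMod.natCast_mod n 7).symm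
  rw [e]
  rcases h with h | h | h <;> rw [h]
  · exact ⟨2, by decide, by decide⟩
  · exact ⟨3, by decide, by decide⟩
  · exact ⟨1, by decide, by decide⟩

/-- everything for a twist -/
def Full (D : ℤ) : Prop :=
  IsGloballyMinimal (WM D) ∧ (∃ f, IsL (WM D) f) ∧ ∃ y : ℤ,
    (Odd y ↔ (Finite (EQ (WM D)).toAffine.Point ∧ ∀ x : Sha (EQ (WM D)), x + x = 0 → x = 0)) ∧
    (Odd y ↔ Good D) ∧
    ∀ f, IsL (WM D) f → (y ≠ 0 → f 1 ≠ 0) ∧ ∃ w : ℚ, w ≠ 0 ∧ padicValRat 2 w = 0 ∧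
      f 1 = (((w : ℝ) * (y : ℝ) ^ 2 * (Omega (WM D) * tamProd (WM D) /
        (Nat.card (AddCommGroup.torsion (EQ (WM D)).toAffine.Point) : ℝ) ^ 2) : ℝ) : ℂ)

/-- the parity of the number given by the structure theorem -/
theorem odd_y {N : Finset ℕ} {D : ℤ} (hN : Pm N) (hD : D.natAbs = pr N) (h4 : D % 4 = 1)
    (hQR : S_QR) {f : ℕ → ZMod 2} (hf : DD f N = DD gX N) (hc : (sB N).card ≤ (sA N).card)
    (hpar : ((sA N).card + (sB N).card) % 2 = 0) {u : ℤ}
    (hu : (sA N).card = (sB N).card → (u : ZMod 2) = DD f N) :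
    (Odd (2 ^ (((sA N).card - (sB N).card) / 2) * u) ↔
      (Finite (EQ (WM D)).toAffine.Point ∧ ∀ x : Sha (EQ (WM D)), x + x = 0 → x = 0)) ∧
    (Odd (2 ^ (((sA N).card - (sB N).card) / 2) * u) ↔ Good D) := by
  have hAd := adm_D hN hD h4
  have hR := Rw_eq hN hD h4
  have hC := Cw_eq hN hD h4
  have z2 : ∀ z : ℤ, Odd z ↔ (z : ZMod 2) = 1 := by
    intro z
    rw [← Int.not_even_iff_odd, ← ZMod.intCast_eq_zero_iff_even]
    generalize (z : ZMod 2) = w
    revert w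
    decide
  by_cases heq : (sA N).card = (sB N).card
  · have e0 : ((sA N).card - (sB N).card) / 2 = 0 := by omega
    rw [e0, pow_zero, one_mul, z2, hu heq, hf, link hN hD h4 hQR]
    refine ⟨equiv Pool.Agent.Z702.f_COC Pool.Agent.Z702.f_LOT Pool.Agent.Z702.f_COB
      Pool.Agent.Z702.f_TOR Pool.Agent.Z702.f_LQ Pool.Agent.Z702.f_LG Pool.Agent.Z702.f_TRN
      hAd ?_, Iff.rfl⟩
    rw [hR, hC, card_SA, card_SB, heq]
  · have e0 : 1 ≤ ((sA N).card - (sB N).card) / 2 := by omega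
    have hev : ¬ Odd (2 ^ (((sA N).card - (sB N).card) / 2) * u) := by
      rw [Int.not_odd_iff_even]
      exact (even_two.pow_of_ne_zero (by omega)).mul_right u
    have hng : ¬ Good D := by
      intro h
      have h1 := (good_iff.1 h).1
      rw [hR, hC, card_SA, card_SB] at h1
      omega
    refine ⟨⟨fun h => absurd h hev, fun h => ?_⟩, fun h => absurd h hev, fun h => absurd h hng⟩
    exfalso
    obtain ⟨t1, t2, -⟩ := Pool.Agent.Z702.trn_WM Pool.Agent.Z702.f_TRN hAd.m4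
    have h2 := conv Pool.Agent.Z702.f_COC Pool.Agent.Z702.f_LOT Pool.Agent.Z702.f_COB
      Pool.Agent.Z702.f_TOR Pool.Agent.Z702.f_LQ Pool.Agent.Z702.f_LG hAd (t1.2 h.1) (t2.2 h.2)
    have h3 := (inj_rank (MD D).transpose).1 h2
    have h4 := (MD D).transpose.rank_le_card_height
    rw [h3, Fintype.card_coe, Fintype.card_coe, hR, hC, card_SA, card_SB] at h4
    omega

/-- **the negative twists** -/
theorem full_neg (hQR : S_QR) (hM : S_MAIN) {N : Finset ℕ} (hN : Pm N) (hK : K 3 (pr N))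
    (hc : (sB N).card ≤ (sA N).card) : Full (-(pr N : ℤ)) := by
  have h8 := hK.1
  have h7 : pr N % 7 = 3 ∨ pr N % 7 = 5 ∨ pr N % 7 = 6 := by
    have := hK.2
    rw [if_neg (by omega)] at this
    exact this
  have hDn : (-(pr N : ℤ)).natAbs = pr N := by rw [Int.natAbs_neg, Int.natAbs_natCast]
  have h4 : (-(pr N : ℤ)) % 4 = 1 := by omega
  have hAd := adm_D hN hDn h4
  obtain ⟨β, hβ0, hβ⟩ := ex_beta h7
  obtain ⟨u, hG, hu⟩ := hM.2 N hN (Or.inl hK) β hβ
  obtain ⟨pB, pA⟩ := K_par hN hK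
  rw [if_pos (Or.inl rfl)] at pB pA
  have hsqf : Squarefree (pr N) := by
    have := hAd.sqf
    rw [← Int.squarefree_natAbs, hDn] at this
    exact this
  have hdef := Pool.Agent.Y17.N.def_of Pool.Agent.Y17.N.f_BIL Pool.Agent.Y17.N.f_T8 hsqf h8
    (fun h => pr_mod7 hN (Nat.mod_eq_zero_of_dvd h)) hβ0 hβ
  rw [← G_eq h8, hG] at hdef
  have hj : jacobiSym 7 (-(pr N : ℤ)).natAbs = 1 := by
    rw [hDn]
    have h1 := jacobiSym.quadratic_reciprocity_three_mod_four (a := 7) (b := pr N) (by norm_num)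
      (by omega)
    push_cast at h1
    rw [h1, j7 _ (pr_mod7 hN), if_neg (by omega)]
    norm_num
  set a : ℕ := (sS N).card + (sB N).card + ((sA N).card + (sI N).card) / 2 with ha
  have hex : ex N = a + ((sA N).card - (sB N).card) / 2 := by
    unfold ex
    rw [max_eq_left hc]
    omega
  obtain ⟨hy1, hy2⟩ := odd_y hN hDn h4 hQR (f := gX) rfl hc (by omega) hu
  obtain ⟨c1, c2, c3⟩ := neg_core hAd (by omega) (by rw [hDn]; exact h8) hj
    (P := sS N ∪ sB N) (S := sA N ∪ sI N) (by rw [hDn]; exact pr_split N) (by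
      intro q hq
      have h1 : q ∈ N ∧ sq7 q := by
        rcases mem_union.1 hq with h | h
        · exact ⟨(mem_filter.1 h).1, (mem_filter.1 h).2.2⟩
        · exact ⟨(mem_filter.1 h).1, (mem_filter.1 h).2.2⟩
      have h2 := hN q h1.1
      exact ⟨h2.1, h2.2.1, h2.2.2, (sq_m7 h2.1 h2.2.1 h2.2.2).2 h1.2⟩) (by
      intro q hq
      have h1 : q ∈ N ∧ ¬ sq7 q := by
        rcases mem_union.1 hq with h | h
        · exact ⟨(mem_filter.1 h).1, (mem_filter.1 h).2.2⟩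
        · exact ⟨(mem_filter.1 h).1, (mem_filter.1 h).2.2⟩
      have h2 := hN q h1.1
      exact ⟨h2.1, h2.2.1, h2.2.2, fun h => h1.2 ((sq_m7 h2.1 h2.2.1 h2.2.2).1 h)⟩)
    (g := 2 ^ ex N * u) (y := 2 ^ (((sA N).card - (sB N).card) / 2) * u) (a := a)
    (by rw [hDn]; exact hdef) (by rw [hex, pow_add]; ring) (by
      rw [card_AI, card_SB]
      omega)
  exact ⟨c1, c2, _, hy1, hy2, c3⟩

end Pool.Agent.NH5.LK
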