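import Pool.Agent.NH1.Defs
import Pool.Agent.NH5.GD.Equiv

/-!
# The permanent modulo two and the rank
-/

set_option autoImplicit false

namespace Pool.Agent.NH5.LK

open Finset
open Pool.Agent.NH1 (perm2)

instance : Fact (Nat.Prime 2) := ⟨Nat.prime_two⟩

theorem z2 (x : ZMod 2) : x = 0 ∨ x = 1 := by revert x; decide

/-- the permanent of a square matrix modulo two is its determinant -/
theorem perm_det {ι : Type} [Fintype ι] [DecidableEq ι] (A : Matrix ι ι (ZMod 2)) :
    A.det = ∑ σ : Equiv.Perm ι, ∏ i, A i (σ i) := by
  rw [← Matrix.det_transpose, Matrix.det_apply]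
  refine sum_congr rfl fun σ _ => ?_
  simp only [Matrix.transpose_apply]
  rcases Int.units_eq_one_or (Equiv.Perm.sign σ) with h | h
  · rw [h, one_smul]
  · rw [h]
    have : ∀ x : ZMod 2, (-1 : ℤˣ) • x = x := by
      intro x
      rw [Units.smul_def, Units.val_neg, Units.val_one, neg_smul, one_smul]
      revert x
      decide
    exact this _

/-- **the permanent modulo two** -/
theorem perm2_iff (R C : Finset ℕ) (M : ℕ → ℕ → ZMod 2) : perm2 R C M = 1 ↔
    R.card = C.card ∧
    Function.Injective (Matrix.of fun (p : R) (q : C) => M p q).mulVec := by
  classical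
  by_cases hc : R.card = C.card
  · obtain ⟨e⟩ : Nonempty (R ≃ C) := ⟨Finset.equivOfCardEq hc⟩
    set A : Matrix R R (ZMod 2) := Matrix.of fun p q => M p (e q) with hA
    have h1 : perm2 R C M = A.det := by
      rw [perm_det]
      unfold perm2
      refine Finset.sum_bij' (fun σ _ => σ.trans e.symm) (fun τ _ => τ.trans e) ?_ ?_ ?_ ?_ ?_
      · intro σ _; exact mem_univ _
      · intro σ _; exact mem_univ _
      · intro σ _
        ext p
        simp
      · intro σ _
        ext p
        simp
      · intro σ _
        refine prod_congr rfl fun p _ => ?_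
        rw [hA]
        simp
    have h2 : A.det = 1 ↔ Function.Injective A.mulVec := by
      rw [Matrix.mulVec_injective_iff_isUnit, Matrix.isUnit_iff_isUnit_det, isUnit_iff_ne_zero]
      rcases z2 A.det with h | h
      · rw [h]; simp
      · rw [h]; simp
    have h3 : Function.Injective A.mulVec ↔
        Function.Injective (Matrix.of fun (p : R) (q : C) => M p q).mulVec := by
      have e1 : ∀ v : C → ZMod 2, (Matrix.of fun (p : R) (q : C) => M p q).mulVec v =
          A.mulVec (v ∘ e) := by
        intro v
        funext p
        unfold Matrix.mulVec dotProduct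
        rw [← Equiv.sum_comp e]
        rfl
      constructor
      · intro h v w hvw
        rw [e1, e1] at hvw
        have := h hvw
        funext q
        have h5 := congrFun this (e.symm q)
        simpa using h5
      · intro h v w hvw
        have h5 := @h (v ∘ e.symm) (w ∘ e.symm) (by
          rw [e1, e1]
          have e6 : ∀ u : R → ZMod 2, (u ∘ e.symm) ∘ e = u := by
            intro u
            funext p
            simp
          rw [e6, e6]
          exact hvw)
        funext p
        have h6 := congrFun h5 (e p)
        simpa using h6
    rw [h1, h2, h3]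
    exact ⟨fun h => ⟨hc, h⟩, fun h => h.2⟩
  · have h0 : IsEmpty (R ≃ C) := by
      constructor
      intro e
      apply hc
      have := Fintype.card_congr e
      rwa [Fintype.card_coe, Fintype.card_coe] at this
    unfold perm2
    constructor
    · intro h
      rw [Finset.univ_eq_empty (α := (R ≃ C)), sum_empty] at h
      exact absurd h (by decide)
    · intro h
      exact absurd h.1 hc

end Pool.Agent.NH5.LK
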