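import Pool.Agent.NH1.Sub
import Pool.Agent.Y563.Z.Sola
import Pool.Agent.Y687.Aq

/-!
# The class of a prime in the class group of `ℚ(√-14)` and the number `13 + 16 √2`
-/

set_option autoImplicit false
set_option linter.style.haveILetI false

namespace Pool.Agent.NH5.LK

open Finset
open Pool.Agent.NH1 (sq2 sq7 S_QR S_CL1)
open Pool.Agent.Z700 (X2)

/-! ### squares modulo seven -/

theorem sq7_of_even {n : ℕ} (hn : n ≠ 0) (h7 : ¬ 7 ∣ n)
    (h : ∀ q : ℕ, q.Prime → (q % 7 = 3 ∨ q % 7 = 5 ∨ q % 7 = 6) → Even (n.factorization q)) :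
    IsSquare ((n : ℕ) : ZMod 7) := by
  haveI : Fact (Nat.Prime 7) := ⟨by norm_num⟩
  have h1 : ((n : ℕ) : ZMod 7) = ∏ q ∈ n.primeFactors, ((q : ℕ) : ZMod 7) ^ n.factorization q := by
    conv_lhs => rw [← Nat.prod_factorization_pow_eq_self hn]
    unfold Finsupp.prod
    rw [Nat.support_factorization]
    push_cast
    rfl
  rw [h1]
  refine Finset.prod_induction _ (fun x => IsSquare x) (fun a b ha hb => ha.mul hb)
    ⟨1, by ring⟩ fun q hq => ?_
  have hqp := Nat.prime_of_mem_primeFactors hq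
  have hqn := Nat.dvd_of_mem_primeFactors hq
  by_cases h2 : q % 7 = 3 ∨ q % 7 = 5 ∨ q % 7 = 6
  · obtain ⟨k, hk⟩ := h q hqp h2
    rw [hk, pow_add]
    exact ⟨_, rfl⟩
  · have h3 : q % 7 ≠ 0 := by
      intro h0
      have h4 := (Nat.prime_dvd_prime_iff_eq (by norm_num) hqp).1 (Nat.dvd_of_mod_eq_zero h0)
      rw [← h4] at hqn
      exact h7 hqn
    have h4 : IsSquare ((q : ℕ) : ZMod 7) := by
      rw [← ZMod.natCast_mod]
      exact (Pool.Agent.Y687.sq7 (q % 7) (Nat.mod_lt _ (by norm_num)) h3).2 (by omega)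
    obtain ⟨t, ht⟩ := h4
    rw [ht, ← pow_two, ← pow_mul, mul_comm, pow_mul, pow_two]
    exact ⟨_, rfl⟩

theorem nsq_m7 {q : ℕ} (hq : q.Prime) (h : q % 7 = 3 ∨ q % 7 = 5 ∨ q % 7 = 6) :
    ¬ IsSquare (-7 : ZMod q) := by
  haveI : Fact q.Prime := ⟨hq⟩
  haveI : Fact (Nat.Prime 7) := ⟨by norm_num⟩
  have q2 : q ≠ 2 := by rintro rfl; omega
  have q7 : q ≠ 7 := by rintro rfl; omega
  have h7 : ¬ IsSquare ((q : ℕ) : ZMod 7) := by
    rw [← ZMod.natCast_mod, Pool.Agent.Y687.sq7 (q % 7) (Nat.mod_lt _ (by norm_num)) (by omega)]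
    omega
  intro hs
  have hodd : q % 2 = 1 := by
    have := hq.eq_two_or_odd
    omega
  have n7 : ((7 : ℕ) : ZMod q) ≠ 0 := by
    rw [Ne, ZMod.natCast_eq_zero_iff]
    intro h0
    exact q7 ((Nat.prime_dvd_prime_iff_eq hq (by norm_num)).1 h0)
  have hq4 : q % 4 = 1 ∨ q % 4 = 3 := by omega
  rcases hq4 with h4 | h4
  · have hi : IsSquare (-1 : ZMod q) := ZMod.exists_sq_eq_neg_one_iff.2 (by omega)
    have h5 : IsSquare ((7 : ℕ) : ZMod q) := by
      have := hi.mul hs
      have e : (-1 : ZMod q) * -7 = ((7 : ℕ) : ZMod q) := by push_cast; ring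
      rwa [e] at this
    exact h7 ((ZMod.exists_sq_eq_prime_iff_of_mod_four_eq_one (p := q) (q := 7) h4 (by norm_num)).1 h5)
  · have hrec := ZMod.exists_sq_eq_prime_iff_of_mod_four_eq_three (p := q) (q := 7) h4 (by norm_num)
      (by rintro rfl; exact q7 rfl)
    have h9 : IsSquare ((7 : ℕ) : ZMod q) := hrec.2 h7
    have hi : IsSquare (-1 : ZMod q) := by
      obtain ⟨a, ha⟩ := h9
      obtain ⟨b, hb⟩ := hs
      have ha0 : a ≠ 0 := by
        rintro rfl
        rw [mul_zero] at ha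
        exact n7 ha
      refine ⟨b / a, ?_⟩
      rw [div_mul_div_comm, ← ha, ← hb]
      push_cast at n7 ⊢
      field_simp
    rw [ZMod.exists_sq_eq_neg_one_iff] at hi
    exact hi h4

theorem val_even {q : ℕ} (hq : q.Prime) (h : q % 7 = 3 ∨ q % 7 = 5 ∨ q % 7 = 6) :
    ∀ (n : ℕ) (D y : ℤ), D.natAbs + y.natAbs = n → D ^ 2 + 7 * y ^ 2 ≠ 0 →
      Even ((D ^ 2 + 7 * y ^ 2).natAbs.factorization q) := by
  haveI : Fact q.Prime := ⟨hq⟩
  intro n
  induction n using Nat.strong_induction_on with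
  | _ n ih =>
    intro D y hn h0
    by_cases hd : (q : ℤ) ∣ D ^ 2 + 7 * y ^ 2
    · have hy : (q : ℤ) ∣ y := by
        by_contra hy
        have hy0 : ((y : ℤ) : ZMod q) ≠ 0 := by
          rwa [Ne, ZMod.intCast_zmod_eq_zero_iff_dvd]
        apply nsq_m7 hq h
        refine ⟨(D : ZMod q) / (y : ZMod q), ?_⟩
        have h1 : (((D ^ 2 + 7 * y ^ 2 : ℤ)) : ZMod q) = 0 := by
          rwa [ZMod.intCast_zmod_eq_zero_iff_dvd]
        push_cast at h1
        rw [div_mul_div_comm, eq_div_iff (mul_ne_zero hy0 hy0)]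
        linear_combination -h1
      obtain ⟨y', rfl⟩ := hy
      have hD : (q : ℤ) ∣ D := by
        have h1 : (q : ℤ) ∣ D ^ 2 := by
          have h2 : (q : ℤ) ∣ 7 * (q * y') ^ 2 := ⟨7 * q * y' ^ 2, by ring⟩
          exact (Int.dvd_add_left h2).1 hd
        exact Int.Prime.dvd_pow' hq h1
      obtain ⟨D', rfl⟩ := hD
      have e : ((q : ℤ) * D') ^ 2 + 7 * (q * y') ^ 2 = (q : ℤ) ^ 2 * (D' ^ 2 + 7 * y' ^ 2) := by ring
      rw [e] at h0 ⊢
      have h0' : D' ^ 2 + 7 * y' ^ 2 ≠ 0 := right_ne_zero_of_mul h0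
      have hlt : D'.natAbs + y'.natAbs < n := by
        rw [← hn, Int.natAbs_mul, Int.natAbs_mul, Int.natAbs_natCast]
        have hq2 := hq.two_le
        have hpos : 0 < D'.natAbs + y'.natAbs := by
          rcases Nat.eq_zero_or_pos (D'.natAbs + y'.natAbs) with h5 | h5
          · exfalso
            apply h0'
            have h6 : D' = 0 := by omega
            have h7 : y' = 0 := by omega
            rw [h6, h7]
            ring
          · exact h5
        nlinarith
      have h2 := ih _ hlt D' y' rfl h0'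
      rw [Int.natAbs_mul, Int.natAbs_pow, Int.natAbs_natCast,
        Nat.factorization_mul (by positivity [hq.pos]) (by rwa [Int.natAbs_ne_zero]),
        Finsupp.add_apply, hq.factorization_pow, Finsupp.single_eq_same]
      exact (even_two).add h2
    · rw [Nat.factorization_eq_zero_of_not_dvd]
      · exact Even.zero
      · rwa [← Int.natCast_dvd]

theorem seven_zero : (7 : ZMod 7) = 0 := by decide

/-- **the key lemma** -/
theorem keyA {C D X y n : ℤ} (hC : 0 < C) (h1 : C ^ 2 - 2 * D ^ 2 = n) (h2 : X ^ 2 + 14 * y ^ 2 = n)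
    (h7 : ¬ (7 : ℤ) ∣ n)
    (hs : ∀ q : ℕ, q.Prime → q ≠ 2 → ¬ ((q : ℤ) ^ 2 ∣ n)) (hDy : D ^ 2 + 7 * y ^ 2 ≠ 0) :
    IsSquare ((2 * C - D : ℤ) : ZMod 7) := by
  haveI : Fact (Nat.Prime 7) := ⟨by norm_num⟩
  wlog hu : ¬ (7 : ℤ) ∣ C + X generalizing X with H
  · refine H (X := -X) (by rw [neg_sq]; exact h2) ?_
    intro h3
    rw [not_not] at hu
    obtain ⟨a, ha⟩ := hu
    obtain ⟨b, hb⟩ := h3
    apply h7
    have hX : (7 : ℤ) ∣ X := by omega
    obtain ⟨x, hx⟩ := hX
    exact ⟨7 * x ^ 2 + 2 * y ^ 2, by rw [← h2, hx]; ring⟩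
  have huv : (C + X) * (C - X) = 2 * (D ^ 2 + 7 * y ^ 2) := by linear_combination h1 - h2
  have hpos : 0 < 2 * (D ^ 2 + 7 * y ^ 2) := by
    have : 0 ≤ D ^ 2 + 7 * y ^ 2 := by positivity
    rcases this.lt_or_eq with h | h
    · linarith
    · exact absurd h.symm hDy
  have hupos : 0 < C + X := by
    by_contra hcon
    push Not at hcon
    have h3 : 0 < C - X := by linarith
    nlinarith
  have hvpos : 0 < C - X := by
    by_contra hcon
    push Not at hcon
    nlinarith
  obtain ⟨u, hu'⟩ : ∃ u : ℕ, C + X = u := ⟨(C + X).toNat, by omega⟩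
  obtain ⟨v, hv'⟩ : ∃ v : ℕ, C - X = v := ⟨(C - X).toNat, by omega⟩
  have hu0 : u ≠ 0 := by omega
  have hv0 : v ≠ 0 := by omega
  have huvN : u * v = 2 * (D ^ 2 + 7 * y ^ 2).natAbs := by
    have h5 : ((u * v : ℕ) : ℤ) = ((2 * (D ^ 2 + 7 * y ^ 2).natAbs : ℕ) : ℤ) := by
      push_cast
      rw [← hu', ← hv', huv, abs_of_pos (by linarith)]
    exact_mod_cast h5
  have hsq : IsSquare ((u : ℕ) : ZMod 7) := by
    refine sq7_of_even hu0 (fun h => hu (by rw [hu']; exact_mod_cast h)) fun q hq hq7 => ?_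
    have hq2 : q ≠ 2 := by rintro rfl; omega
    by_cases hqu : q ∣ u
    · have hqv : ¬ q ∣ v := by
        intro hqv
        have a1 : (q : ℤ) ∣ C + X := by rw [hu']; exact_mod_cast hqu
        have a2 : (q : ℤ) ∣ C - X := by rw [hv']; exact_mod_cast hqv
        have a3 : (q : ℤ) ∣ 2 * X := by
          have := dvd_sub a1 a2
          have e : C + X - (C - X) = 2 * X := by ring
          rwa [e] at this
        have hqP := Nat.prime_iff_prime_int.1 hq
        have a4 : (q : ℤ) ∣ X := by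
          rcases hqP.dvd_or_dvd a3 with h | h
          · exfalso
            have : q ∣ 2 := by exact_mod_cast h
            exact hq2 ((Nat.prime_dvd_prime_iff_eq hq Nat.prime_two).1 this)
          · exact h
        -- `q ∣ D`, `q ∣ y`
        have a5 : (q : ℤ) ∣ D ^ 2 + 7 * y ^ 2 := by
          have : (q : ℤ) ∣ 2 * (D ^ 2 + 7 * y ^ 2) := by
            rw [← huv]; exact Dvd.dvd.mul_right a1 _
          rcases hqP.dvd_or_dvd this with h | h
          · exfalso
            have : q ∣ 2 := by exact_mod_cast h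
            exact hq2 ((Nat.prime_dvd_prime_iff_eq hq Nat.prime_two).1 this)
          · exact h
        haveI : Fact q.Prime := ⟨hq⟩
        have a6 : (q : ℤ) ∣ y := by
          by_contra hy
          have hy0 : ((y : ℤ) : ZMod q) ≠ 0 := by
            rwa [Ne, ZMod.intCast_zmod_eq_zero_iff_dvd]
          apply nsq_m7 hq hq7
          refine ⟨(D : ZMod q) / (y : ZMod q), ?_⟩
          have h1 : (((D ^ 2 + 7 * y ^ 2 : ℤ)) : ZMod q) = 0 := by
            rwa [ZMod.intCast_zmod_eq_zero_iff_dvd]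
          push_cast at h1
          rw [div_mul_div_comm, eq_div_iff (mul_ne_zero hy0 hy0)]
          linear_combination -h1
        obtain ⟨s, hs'⟩ := a4
        obtain ⟨t, ht⟩ := a6
        exact hs q hq hq2 ⟨s ^ 2 + 14 * t ^ 2, by rw [← h2, hs', ht]; ring⟩
      have h5 : (u * v).factorization q = (2 * (D ^ 2 + 7 * y ^ 2).natAbs).factorization q := by
        rw [huvN]
      rw [Nat.factorization_mul hu0 hv0, Nat.factorization_mul (by norm_num)
        (by rw [Int.natAbs_ne_zero]; exact hDy), Finsupp.add_apply, Finsupp.add_apply,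
        Nat.factorization_eq_zero_of_not_dvd hqv, add_zero,
        Nat.factorization_eq_zero_of_not_dvd (show ¬ q ∣ 2 from fun h =>
          hq2 ((Nat.prime_dvd_prime_iff_eq hq Nat.prime_two).1 h)), zero_add] at h5
      rw [h5]
      exact val_even hq hq7 _ D y rfl hDy
    · rw [Nat.factorization_eq_zero_of_not_dvd hqu]
      exact Even.zero
  obtain ⟨t, ht⟩ := hsq
  have hu7 : ((u : ℕ) : ZMod 7) ≠ 0 := by
    rw [Ne, ZMod.natCast_eq_zero_iff]
    intro h
    exact hu (by rw [hu']; exact_mod_cast h)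
  have ht0 : t ≠ 0 := by
    rintro rfl
    rw [mul_zero] at ht
    exact hu7 ht
  have hkey : ((u : ℕ) : ZMod 7) * ((2 * C - D : ℤ) : ZMod 7) = ((u : ZMod 7) - 4 * (D : ZMod 7)) ^ 2 := by
    have h5 : (u : ℤ) * (2 * C - D) - ((u : ℤ) - 4 * D) ^ 2 =
        7 * (-2 * D ^ 2 + 2 * y ^ 2 + (u : ℤ) * D) := by
      rw [← hu']
      linear_combination huv
    have h6 := congrArg (fun z : ℤ => (z : ZMod 7)) h5
    push_cast at h6
    have e7 : (7 : ZMod 7) = 0 := seven_zero
    rw [e7, zero_mul] at h6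
    push_cast
    linear_combination h6
  refine ⟨((u : ZMod 7) - 4 * (D : ZMod 7)) / t, ?_⟩
  rw [div_mul_div_comm, ← pow_two, ← hkey, ht]
  field_simp

end Pool.Agent.NH5.LK
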