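import Pool.Agent.NH5.LK.QR
import Pool.Agent.NH5.GC.Good

/-!
# The class of a prime in the class group of `ℚ(√-14)` and the number `13 + 16 √2`, II
-/

set_option autoImplicit false
set_option linter.style.haveILetI false

namespace Pool.Agent.NH5.LK

open Finset
open Pool.Agent.NH1 (sq2 sq7 S_QR S_CL1)
open Pool.Agent.Z700 (X2)
open Pool.Agent.NH5.GD (q2 q2_eq_zero q2_mul zmod2_add)
open Pool.Agent.NH5.GC (sq_m7)

theorem jm7 {n : ℕ} (hn : Odd n) : jacobiSym (-7) n = jacobiSym n 7 := by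
  have e : (-7 : ℤ) = -1 * 7 := by norm_num
  rw [e, jacobiSym.mul_left, jacobiSym.at_neg_one hn]
  have h2 : n % 2 = 1 := Nat.odd_iff.1 hn
  have h4 : n % 4 = 1 ∨ n % 4 = 3 := by omega
  rcases h4 with h | h
  · rw [ZMod.χ₄_nat_one_mod_four h, one_mul]
    have := jacobiSym.quadratic_reciprocity_one_mod_four (a := n) (b := 7) h (by decide)
    push_cast at this
    exact this.symm
  · rw [ZMod.χ₄_nat_three_mod_four h]
    have := jacobiSym.quadratic_reciprocity_three_mod_four (a := 7) (b := n) (by norm_num) h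
    push_cast at this
    rw [this]
    ring

theorem j27 : jacobiSym 2 7 = 1 := by norm_num

/-- the representation by `c² - 2 d²` -/
theorem rep2 {p : ℕ} (hp : p.Prime) (h8 : p % 8 = 1 ∨ p % 8 = 7) :
    ∃ c d : ℕ, 0 < d ∧ 0 < c ∧ (p : ℤ) = (c : ℤ) ^ 2 - 2 * (d : ℤ) ^ 2 := by
  haveI : Fact p.Prime := ⟨hp⟩
  have p2 : p ≠ 2 := by rintro rfl; omega
  obtain ⟨r, hr⟩ := (ZMod.exists_sq_eq_two_iff p2).2 h8
  obtain ⟨x, y, h0, hx, hy, hd⟩ := Pool.Agent.Y563.Z.thue hp ((r.val : ℕ) : ℤ)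
  have hr2 : (p : ℤ) ∣ ((r.val : ℕ) : ℤ) ^ 2 - 2 := by
    rw [← ZMod.intCast_zmod_eq_zero_iff_dvd]
    push_cast
    rw [ZMod.natCast_zmod_val]
    linear_combination -hr
  have h1 : (p : ℤ) ∣ x ^ 2 - 2 * y ^ 2 := by
    have : x ^ 2 - 2 * y ^ 2 = (x - ((r.val : ℕ) : ℤ) * y) * (x + ((r.val : ℕ) : ℤ) * y) +
      (((r.val : ℕ) : ℤ) ^ 2 - 2) * y ^ 2 := by ring
    rw [this]
    exact dvd_add (Dvd.dvd.mul_right hd _) (Dvd.dvd.mul_right hr2 _)
  obtain ⟨k, hk⟩ := h1
  have hp0 : (0 : ℤ) < p := by exact_mod_cast hp.pos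
  have hk1 : k < 1 := by
    by_contra h
    push Not at h
    nlinarith [sq_nonneg y]
  have hk2 : -2 < k := by
    by_contra h
    push Not at h
    nlinarith [sq_nonneg x]
  have hk0 : k ≠ 0 := by
    rintro rfl
    rw [mul_zero] at hk
    have h2 : x ^ 2 = 2 * y ^ 2 := by linarith
    have hy0 : y ≠ 0 := by
      rintro rfl
      have : x = 0 := by
        have h3 : x ^ 2 = 0 := by rw [h2]; ring
        exact pow_eq_zero_iff (two_ne_zero) |>.1 h3
      rcases h0 with h0 | h0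
      · exact h0 this
      · exact h0 rfl
    have h3 : ((x : ℝ) / y) ^ 2 = 2 := by
      have hyR : (y : ℝ) ≠ 0 := by exact_mod_cast hy0
      rw [div_pow, div_eq_iff (pow_ne_zero 2 hyR)]
      exact_mod_cast h2
    have h4 : Irrational (Real.sqrt 2) := irrational_sqrt_two
    have h5 : Real.sqrt 2 = |(x : ℝ) / y| := by
      rw [← h3, Real.sqrt_sq_eq_abs]
    apply h4
    refine ⟨|(x : ℚ) / y|, ?_⟩
    rw [h5]
    push_cast
    rfl
  have hkm : k = -1 := by omega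
  rw [hkm] at hk
  refine ⟨(x + 2 * y).natAbs, (x + y).natAbs, ?_, ?_, ?_⟩
  · rw [Int.natAbs_pos]
    intro h
    have hx' : x = -y := by linarith
    rw [hx'] at hk
    have h2 : y ^ 2 = p := by linear_combination -hk
    have h3 : p = y.natAbs ^ 2 := by
      have : ((p : ℕ) : ℤ) = ((y.natAbs ^ 2 : ℕ) : ℤ) := by
        push_cast
        rw [sq_abs]
        exact h2.symm
      exact_mod_cast this
    rw [h3] at hp
    exact Nat.Prime.not_prime_pow (le_refl 2) hp
  · rw [Int.natAbs_pos]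
    intro h
    have hx' : x = -2 * y := by linarith
    rw [hx'] at hk
    have h2 : 2 * y ^ 2 = -p := by linear_combination hk
    nlinarith [sq_nonneg y]
  · push_cast
    rw [sq_abs, sq_abs]
    linear_combination hk

theorem par8 {c d : ℕ} (h : ((c : ℤ) ^ 2 - 2 * (d : ℤ) ^ 2) % 8 = 7) : c % 2 = 1 ∧ d % 2 = 1 := by
  rcases Nat.even_or_odd' c with ⟨a, rfl | rfl⟩
  · exfalso
    push_cast at h
    have e : ((2 * (a : ℤ)) ^ 2 - 2 * (d : ℤ) ^ 2) = 2 * (2 * (a : ℤ) ^ 2 - (d : ℤ) ^ 2) := by ring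
    rw [e] at h
    omega
  · rcases Nat.even_or_odd' d with ⟨b, rfl | rfl⟩
    · exfalso
      push_cast at h
      obtain ⟨t, ht⟩ := Int.even_mul_succ_self (a : ℤ)
      have e : ((2 * (a : ℤ) + 1) ^ 2 - 2 * (2 * (b : ℤ)) ^ 2) =
          8 * (t - (b : ℤ) ^ 2) + 1 := by linear_combination 4 * ht
      rw [e] at h
      omega
    · omega

/-- **the criterion** -/
theorem crit {p : ℕ} (hp : p.Prime) (h8 : p % 8 = 1 ∨ p % 8 = 7) (h7 : p ≠ 7)
    (hs7 : IsSquare (-7 : ZMod p)) {c d m : ℕ} (hd : 0 < d) (hcd : (p : ℤ) = (c : ℤ) ^ 2 - 2 * (d : ℤ) ^ 2)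
    (hm : (m : ℤ) = 2 * c - d) (hm7 : ¬ 7 ∣ m) (w : ZMod p) (hw : w ^ 2 = 2) :
    IsSquare (2 * w - 1) ↔ IsSquare ((m : ℕ) : ZMod 7) := by
  haveI : Fact p.Prime := ⟨hp⟩
  haveI : Fact (Nat.Prime 7) := ⟨by norm_num⟩
  have p2 : p ≠ 2 := by rintro rfl; omega
  have hpP := Nat.prime_iff_prime_int.1 hp
  -- coprimality
  have hcop : ∀ q : ℕ, q.Prime → q ∣ c → q ∣ d → False := by
    intro q hq h1 h2
    obtain ⟨a, rfl⟩ := h1
    obtain ⟨b, rfl⟩ := h2
    have h3 : (q ^ 2 : ℕ) ∣ p := by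
      have : ((q ^ 2 : ℕ) : ℤ) ∣ (p : ℤ) := by
        refine ⟨a ^ 2 - 2 * b ^ 2, ?_⟩
        rw [hcd]
        push_cast
        ring
      exact_mod_cast this
    have h4 := hp.squarefree q (by rw [← pow_two]; exact h3)
    rw [Nat.isUnit_iff] at h4
    exact hq.one_lt.ne' h4
  have hpc : ¬ p ∣ d := by
    intro h
    have h1 : (p : ℤ) ∣ (c : ℤ) ^ 2 := by
      have h2 : (p : ℤ) ∣ 2 * (d : ℤ) ^ 2 := by
        have : (p : ℤ) ∣ (d : ℤ) := by exact_mod_cast h
        exact Dvd.dvd.mul_left (Dvd.dvd.pow this two_ne_zero) 2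
      have h3 : (c : ℤ) ^ 2 = p + 2 * (d : ℤ) ^ 2 := by rw [hcd]; ring
      rw [h3]
      exact dvd_add (dvd_refl _) h2
    have h2 : p ∣ c := by
      have := Int.Prime.dvd_pow' hp h1
      exact_mod_cast this
    exact hcop p hp h2 h
  have hd0 : ((d : ℕ) : ZMod p) ≠ 0 := by
    rw [Ne, ZMod.natCast_eq_zero_iff]; exact hpc
  have hcdp : ((c : ℕ) : ZMod p) ^ 2 = 2 * ((d : ℕ) : ZMod p) ^ 2 := by
    have h1 := congrArg (fun z : ℤ => (z : ZMod p)) hcd
    push_cast at h1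
    rw [ZMod.natCast_self] at h1
    linear_combination -h1
  -- independence of the sign
  have hn7 : (-7 : ZMod p) ≠ 0 := by
    rw [Ne, neg_eq_zero]
    intro h0
    have : ((7 : ℕ) : ZMod p) = 0 := by push_cast; exact h0
    rw [ZMod.natCast_eq_zero_iff] at this
    exact h7 ((Nat.prime_dvd_prime_iff_eq hp (by norm_num)).1 this)
  have hprod : ∀ v : ZMod p, v ^ 2 = 2 → (2 * v - 1) * (2 * (-v) - 1) = -7 := by
    intro v hv
    linear_combination -4 * hv
  have hne : ∀ v : ZMod p, v ^ 2 = 2 → 2 * v - 1 ≠ 0 := by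
    intro v hv h0
    have := hprod v hv
    rw [h0, zero_mul] at this
    exact hn7 this.symm
  have hsign : ∀ v : ZMod p, v ^ 2 = 2 → (IsSquare (2 * v - 1) ↔ IsSquare (2 * (-v) - 1)) := by
    intro v hv
    have h1 := hne v hv
    have h2 := hne (-v) (by rw [neg_sq]; exact hv)
    have h3 := q2_mul p2 h1 h2
    rw [hprod v hv, q2_eq_zero.2 hs7] at h3
    rw [← q2_eq_zero, ← q2_eq_zero, zmod2_add.1 h3.symm]
  -- the symbols modulo `p`
  have hL : ∀ n : ℕ, ¬ p ∣ n → (IsSquare ((n : ℕ) : ZMod p) ↔ jacobiSym n p = 1) := by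
    intro n hn
    rw [← jacobiSym.legendreSym.to_jacobiSym]
    have h1 := legendreSym.eq_one_iff p (a := ((n : ℕ) : ℤ)) (by
      rw [Int.cast_natCast, Ne, ZMod.natCast_eq_zero_iff]; exact hn)
    rw [Int.cast_natCast] at h1
    exact h1.symm
  have hpm : ¬ p ∣ m := by
    intro h
    have h1 : (p : ℤ) ∣ (m : ℤ) := by exact_mod_cast h
    have h2 : (p : ℤ) ∣ 7 * (d : ℤ) ^ 2 := by
      have h3 : 7 * (d : ℤ) ^ 2 = (m : ℤ) * (2 * c + d) - 4 * p := by rw [hm, hcd]; ring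
      rw [h3]
      exact dvd_sub (Dvd.dvd.mul_right h1 _) (Dvd.intro_left _ rfl)
    rcases hpP.dvd_or_dvd h2 with h3 | h3
    · have h4 : p ∣ 7 := by exact_mod_cast h3
      exact h7 ((Nat.prime_dvd_prime_iff_eq hp (by norm_num)).1 h4)
    · apply hpc
      have := Int.Prime.dvd_pow' hp h3
      exact_mod_cast this
  have hmain : ∀ v : ZMod p, v ^ 2 = 2 → v * d = c → (IsSquare (2 * v - 1) ↔
      jacobiSym (m * d : ℕ) p = 1) := by
    intro v hv hvd
    rw [← hL (m * d) (fun h => by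
      rcases (Nat.Prime.dvd_mul hp).1 h with h | h
      · exact hpm h
      · exact hpc h)]
    have e : ((m * d : ℕ) : ZMod p) = (2 * v - 1) * (d * d) := by
      have h1 := congrArg (fun z : ℤ => (z : ZMod p)) hm
      push_cast at h1 ⊢
      rw [h1, ← hvd]
      ring
    rw [e, ← q2_eq_zero, ← q2_eq_zero, q2_mul p2 (hne v hv) (mul_ne_zero hd0 hd0),
      q2_eq_zero.2 ⟨_, rfl⟩, add_zero]
  have hmain2 : IsSquare (2 * w - 1) ↔ jacobiSym (m * d : ℕ) p = 1 := by
    have h1 : (w * d - c) * (w * d + c) = 0 := by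
      linear_combination (d : ZMod p) ^ 2 * hw - hcdp
    rcases mul_eq_zero.1 h1 with h | h
    · exact hmain w hw (by linear_combination h)
    · rw [hsign w hw]
      exact hmain (-w) (by rw [neg_sq]; exact hw) (by linear_combination -h)
  rw [hmain2]
  -- reciprocity
  have h49 : IsSquare ((m : ℕ) : ZMod 7) ↔ jacobiSym m 7 = 1 := by
    rw [← jacobiSym.legendreSym.to_jacobiSym]
    have h1 := legendreSym.eq_one_iff 7 (a := ((m : ℕ) : ℤ)) (by
      rw [Int.cast_natCast, Ne, ZMod.natCast_eq_zero_iff]; exact hm7)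
    rw [Int.cast_natCast] at h1
    exact h1.symm
  rw [h49]
  have hJd : ∀ n : ℕ, Odd n → n ∣ d → jacobiSym p n = 1 := by
    intro n hn hnd
    have h1 : jacobiSym (p : ℤ) n = jacobiSym ((c : ℤ) ^ 2) n := by
      apply jacobiSym.mod_left'
      apply Int.ModEq.eq
      rw [Int.modEq_iff_dvd]
      have hnd' : (n : ℤ) ∣ (d : ℤ) := by exact_mod_cast hnd
      have e : (c : ℤ) ^ 2 - p = 2 * d * d := by rw [hcd]; ring
      rw [e]
      exact Dvd.dvd.mul_left hnd' _
    rw [h1]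
    apply jacobiSym.sq_one'
    rw [Int.gcd_natCast_natCast]
    by_contra hg
    obtain ⟨q, hq, hqg⟩ := Nat.exists_prime_and_dvd hg
    exact hcop q hq (hqg.trans (Nat.gcd_dvd_left _ _)) ((hqg.trans (Nat.gcd_dvd_right _ _)).trans hnd)
  have hJm : ∀ n : ℕ, Odd n → n ∣ m → jacobiSym p n = jacobiSym n 7 := by
    intro n hn hnm
    have hnm' : (n : ℤ) ∣ (m : ℤ) := by exact_mod_cast hnm
    have h1 : jacobiSym (p : ℤ) n = jacobiSym (-7 * (c : ℤ) ^ 2) n := by
      apply jacobiSym.mod_left'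
      apply Int.ModEq.eq
      rw [Int.modEq_iff_dvd]
      have e : -7 * (c : ℤ) ^ 2 - p = -(m : ℤ) * (2 * (2 * c + d)) := by rw [hcd, hm]; ring
      rw [e]
      exact Dvd.dvd.mul_right ((dvd_neg).2 hnm') _
    rw [h1, jacobiSym.mul_left, jm7 hn, jacobiSym.sq_one', mul_one]
    rw [Int.gcd_natCast_natCast]
    by_contra hg
    obtain ⟨q, hq, hqg⟩ := Nat.exists_prime_and_dvd hg
    have hqc : q ∣ c := hqg.trans (Nat.gcd_dvd_left _ _)
    have hqm : q ∣ m := (hqg.trans (Nat.gcd_dvd_right _ _)).trans hnm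
    refine hcop q hq hqc ?_
    have h3 : (q : ℤ) ∣ (d : ℤ) := by
      have h4 : (d : ℤ) = 2 * c - m := by rw [hm]; ring
      rw [h4]
      exact dvd_sub (Dvd.dvd.mul_left (by exact_mod_cast hqc) 2) (by exact_mod_cast hqm)
    exact_mod_cast h3
  have hfin : jacobiSym (m * d : ℕ) p = jacobiSym m 7 := by
    rw [Nat.cast_mul, jacobiSym.mul_left]
    have hm0 : m ≠ 0 := by
      rintro rfl
      exact hm7 (dvd_zero 7)
    rcases h8 with h8 | h8
    · -- `p = 1 mod 8`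
      have j2 : jacobiSym 2 p = 1 := by
        rw [jacobiSym.at_two (by rw [Nat.odd_iff]; omega), ZMod.χ₈_nat_eq_if_mod_eight]
        simp [h8]
        omega
      have hgen : ∀ n : ℕ, n ≠ 0 → ∃ k n₁, n = 2 ^ k * n₁ ∧ Odd n₁ ∧
          jacobiSym n p = jacobiSym p n₁ := by
        intro n hn
        obtain ⟨k, n₁, hn₁, e⟩ := Nat.exists_eq_two_pow_mul_odd hn
        refine ⟨k, n₁, e, hn₁, ?_⟩
        rw [e]
        push_cast
        rw [jacobiSym.mul_left, jacobiSym.pow_left, j2, one_pow, one_mul]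
        exact (jacobiSym.quadratic_reciprocity_one_mod_four (a := p) (b := n₁) (by omega) hn₁).symm
      obtain ⟨k, m₁, e1, o1, g1⟩ := hgen m hm0
      obtain ⟨j, d₁, e2, o2, g2⟩ := hgen d hd.ne'
      rw [g1, g2, hJd d₁ o2 ⟨2 ^ j, by rw [e2]; ring⟩, mul_one, hJm m₁ o1 ⟨2 ^ k, by rw [e1]; ring⟩]
      conv_rhs => rw [e1]
      push_cast
      rw [jacobiSym.mul_left, jacobiSym.pow_left, j27, one_pow, one_mul]
    · -- `p = 7 mod 8`
      have hmod : ((c : ℤ) ^ 2 - 2 * (d : ℤ) ^ 2) % 8 = 7 := by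
        rw [← hcd]; omega
      have hodd : c % 2 = 1 ∧ d % 2 = 1 := par8 hmod
      have o1 : Odd m := by
        rw [Nat.odd_iff]
        omega
      have o2 : Odd d := Nat.odd_iff.2 hodd.2
      have hdm : d % 4 = m % 4 := by omega
      have hd4 : d % 4 = 1 ∨ d % 4 = 3 := by omega
      rcases hd4 with h4 | h4
      · rw [jacobiSym.quadratic_reciprocity_one_mod_four (a := m) (b := p) (by omega)
          (by rw [Nat.odd_iff]; omega),
          jacobiSym.quadratic_reciprocity_one_mod_four (a := d) (b := p) h4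
          (by rw [Nat.odd_iff]; omega), hJd d o2 (dvd_refl _), mul_one, hJm m o1 (dvd_refl _)]
      · rw [jacobiSym.quadratic_reciprocity_three_mod_four (a := m) (b := p) (by omega) (by omega),
          jacobiSym.quadratic_reciprocity_three_mod_four (a := d) (b := p) h4 (by omega),
          hJd d o2 (dvd_refl _), hJm m o1 (dvd_refl _)]
        ring
  rw [hfin]

end Pool.Agent.NH5.LK
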